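import Mathlib

/-! Parities of common members of subsets of a three element set. -/

set_option autoImplicit false

namespace Pool.Agent.Zk81.Out

/-- subsets of a three element set -/
abbrev T3 : Type := Bool × Bool × Bool

/-- the parity of the number of common members -/
def par (l c : T3) : Bool := (l.1 && c.1) ^^ ((l.2.1 && c.2.1) ^^ (l.2.2 && c.2.2))

/-- three different odd points, in the standard order -/
def Odd3 (P1 P2 P3 : T3) : Prop :=
  (P1 = (true, false, false) ∧ P2 = (false, true, false) ∧ P3 = (false, false, true)) ∨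
  (P1 = (false, true, false) ∧ P2 = (false, false, true) ∧ P3 = (true, true, true)) ∨
  (P1 = (true, false, false) ∧ P2 = (false, false, true) ∧ P3 = (true, true, true)) ∨
  (P1 = (true, false, false) ∧ P2 = (false, true, false) ∧ P3 = (true, true, true))

instance (P1 P2 P3 : T3) : Decidable (Odd3 P1 P2 P3) := by unfold Odd3; infer_instance

/-- no functional with odd value at `l` vanishes where it should -/
def NoF (P1 P2 P3 c1 c2 c3 : T3) : Prop := ∃ l : T3, l ≠ (false, false, false) ∧
  ∀ F : T3, par F l = true → (par l c1 = true ∧ par F P1 = true) ∨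
    (par l c2 = true ∧ par F P2 = true) ∨ (par l c3 = true ∧ par F P3 = true)

instance (P1 P2 P3 c1 c2 c3 : T3) : Decidable (NoF P1 P2 P3 c1 c2 c3) := by
  unfold NoF; infer_instance

/-- three of the four odd points -/
lemma two_pts : ∀ P1 P2 P3 : T3, Odd3 P1 P2 P3 → ∀ c1 : T3, c1 ≠ (false, false, false) →
    ∀ c2 : T3, c2 ≠ (false, false, false) → ∀ c3 : T3, c3 ≠ (false, false, false) →
      NoF P1 P2 P3 c1 c2 c3 := by
  decide +kernel

lemma greedy1 : ∀ l : T3, ∃ c : T3, c ≠ (false, false, false) ∧ par l c = false := by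
  decide +kernel

lemma greedy2 : ∀ l l' : T3, ∃ c : T3, c ≠ (false, false, false) ∧ par l c = false ∧
    par l' c = false := by
  decide +kernel

lemma greedy3 : ∀ l1 l2 l3 : T3, l1 ≠ (false, false, false) →
    (∃ c : T3, par l1 c = false ∧ par l2 c = true) →
    (∃ c' : T3, par l1 c' = false ∧ par l2 c' = false ∧ par l3 c' = true) →
    ∀ c'' : T3, c'' ≠ (false, false, false) →
        par l1 c'' = true ∨ par l2 c'' = true ∨ par l3 c'' = true := by
  decide +kernel

/-- three subsets such that each nonempty subset meets one of them oddly -/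
def Sp3 (l1 l2 l3 : T3) : Prop := ∀ c : T3, c ≠ (false, false, false) →
  par l1 c = true ∨ par l2 c = true ∨ par l3 c = true

instance (l1 l2 l3 : T3) : Decidable (Sp3 l1 l2 l3) := by unfold Sp3; infer_instance

lemma exch : ∀ l1 l2 l3 m : T3, Sp3 l1 l2 l3 → m ≠ (false, false, false) → m ≠ l1 → m ≠ l2 →
    m ≠ l3 → (Sp3 m l2 l3 ∧ Sp3 l1 m l3) ∨ (Sp3 m l2 l3 ∧ Sp3 l1 l2 m) ∨
      (Sp3 l1 m l3 ∧ Sp3 l1 l2 m) := by
  decide +kernel

/-- two of the four odd points -/
lemma pick_two (Q : T3 → Prop) (hQ : ∀ P1 P2 P3 : T3, Odd3 P1 P2 P3 → Q P1 ∨ Q P2 ∨ Q P3) : ∃ P P' : T3, par P (true, true, true) = true ∧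
      par P' (true, true, true) = true ∧ P ≠ P' ∧ Q P ∧ Q P' := by
  have h1 := hQ (true, false, false) (false, true, false) (false, false, true) (by decide)
  have h2 := hQ (false, true, false) (false, false, true) (true, true, true) (by decide)
  have h3 := hQ (true, false, false) (false, false, true) (true, true, true) (by decide)
  have h4 := hQ (true, false, false) (false, true, false) (true, true, true) (by decide)
  rcases h1 with k | k | k
  · rcases h2 with k' | k' | k'
    · exact ⟨_, _, by decide, by decide, by decide, k, k'⟩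
    · exact ⟨_, _, by decide, by decide, by decide, k, k'⟩
    · exact ⟨_, _, by decide, by decide, by decide, k, k'⟩
  · rcases h3 with k' | k' | k'
    · exact ⟨_, _, by decide, by decide, by decide, k, k'⟩
    · exact ⟨_, _, by decide, by decide, by decide, k, k'⟩
    · exact ⟨_, _, by decide, by decide, by decide, k, k'⟩
  · rcases h4 with k' | k' | k'
    · exact ⟨_, _, by decide, by decide, by decide, k, k'⟩
    · exact ⟨_, _, by decide, by decide, by decide, k, k'⟩
    · exact ⟨_, _, by decide, by decide, by decide, k, k'⟩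

/-- a family of subsets which meets each nonempty subset oddly contains three such subsets -/
lemma three (N : T3 → Prop)
    (hN : ∀ c : T3, c ≠ (false, false, false) → ∃ l, N l ∧ par l c = true) :
    ∃ l1 l2 l3 : T3, N l1 ∧ N l2 ∧ N l3 ∧ Sp3 l1 l2 l3 := by
  obtain ⟨l1, h1, h1'⟩ := hN (true, false, false) (by decide)
  have hl1 : l1 ≠ (false, false, false) := by
    rintro rfl
    exact absurd h1' (by decide)
  obtain ⟨c, hc, k⟩ := greedy1 l1
  obtain ⟨l2, h2, h2'⟩ := hN c hc
  obtain ⟨c', hc', k1, k2⟩ := greedy2 l1 l2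
  obtain ⟨l3, h3, h3'⟩ := hN c' hc'
  exact ⟨l1, l2, l3, h1, h2, h3, greedy3 l1 l2 l3 hl1 ⟨c, k, h2'⟩ ⟨c', k1, k2, h3'⟩⟩

/-- the product of the members with index in a set -/
def pw {G : Type*} [CommGroup G] (x y z : G) (l : T3) : G :=
  (bif l.1 then x else 1) * ((bif l.2.1 then y else 1) * (bif l.2.2 then z else 1))

section
variable {G : Type*} [CommGroup G] (h2 : ∀ a : G, a * a = 1)

lemma pw_zero (x y z : G) : pw x y z (false, false, false) = 1 := by
  simp [pw]

lemma pw_mul (x y z x' y' z' : G) (l : T3) :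
    pw (x * x') (y * y') (z * z') l = pw x y z l * pw x' y' z' l := by
  obtain ⟨a, b, c⟩ := l
  cases a <;> cases b <;> cases c <;> simp [pw, mul_comm, mul_left_comm]

include h2 in
lemma pw_par (b : G) (c l : T3) :
    pw (bif c.1 then b else 1) (bif c.2.1 then b else 1) (bif c.2.2 then b else 1) l =
      bif par l c then b else 1 := by
  obtain ⟨a1, a2, a3⟩ := l
  obtain ⟨c1, c2, c3⟩ := c
  cases a1 <;> cases a2 <;> cases a3 <;> cases c1 <;> cases c2 <;> cases c3 <;>
    simp [pw, par, h2]

include h2 in
lemma pw_xor (x y z : G) (l l' : T3) :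
    pw x y z (l.1 ^^ l'.1, l.2.1 ^^ l'.2.1, l.2.2 ^^ l'.2.2) = pw x y z l * pw x y z l' := by
  have k : ∀ (u : G) (a b : Bool), (bif (a ^^ b) then u else 1) =
      (bif a then u else 1) * (bif b then u else 1) := by
    intro u a b
    cases a <;> cases b <;> simp [h2]
  simp only [pw, k]
  rw [mul_mul_mul_comm (bif l.2.1 then y else 1), mul_mul_mul_comm]

end

/-- a homomorphism at a product -/
lemma hom_pw {G : Type*} [CommGroup G] {f : G → ZMod 2} (hf : ∀ a b, f (a * b) = f a + f b)
    (x y z : G) (l : T3) : f (pw x y z l) = 1 ↔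
      par (decide (f x = 1), decide (f y = 1), decide (f z = 1)) l = true := by
  have h01 : ∀ u : ZMod 2, u = 0 ∨ u = 1 := by decide
  have f1 : f 1 = 0 := by
    have := hf 1 1
    rw [mul_one] at this
    exact left_eq_add.1 this
  obtain ⟨a, b, c⟩ := l
  rw [pw, hf, hf]
  cases a <;> cases b <;> cases c <;> rcases h01 (f x) with k1 | k1 <;>
    rcases h01 (f y) with k2 | k2 <;> rcases h01 (f z) with k3 | k3 <;>
    simp [par, k1, k2, k3, f1] <;> decide

/-- a triple with product one in the group of order eight -/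
lemma xor_eq (l l' : T3)
    (h : (l.1 ^^ l'.1, l.2.1 ^^ l'.2.1, l.2.2 ^^ l'.2.2) = ((false, false, false) : T3)) :
    l = l' := by
  revert l l'
  decide

end Pool.Agent.Zk81.Out
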