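import Pool.Agent.Zk81.Out.Vals
import Pool.Agent.N88.ETC.Field
import Pool.Agent.HP778.QS.Field

/-! Fields with few norm groups of index more than eight. -/

set_option autoImplicit false

namespace Pool.Agent.Zk81.Out

open Pool.Agent.H315R3.ETC Pool.Agent.TH188.ET Pool.Agent.TH673.VG Pool.Agent.R19.QS
  Pool.Agent.N88.ETC Pool.Agent.TH188.ETF
open Pool.Agent.HP778.QS (squares mem_squares classes)

universe u

section
variable {S : QData} (h : IsQuat S) [Finite S.G]

/-- the relative index of the value group of an element of `Out` -/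
lemma relIndex_out {H : Subgroup S.G} {b : S.G} (hb : b ∈ Out S H) :
    8 ≤ (D h b).relIndex H := by
  obtain ⟨hbH, x, hx, y, hy, z, hz, hne⟩ := hb
  have hmem : ∀ c : T3, pw x y z c ∈ H := by
    rintro ⟨c1, c2, c3⟩
    refine H.mul_mem ?_ (H.mul_mem ?_ ?_)
    · cases c1
      · exact H.one_mem
      · exact hx
    · cases c2
      · exact H.one_mem
      · exact hy
    · cases c3
      · exact H.one_mem
      · exact hz
  let φ : T3 → H ⧸ (D h b).subgroupOf H := fun c => QuotientGroup.mk ⟨pw x y z c, hmem c⟩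
  have hinj : Function.Injective φ := by
    intro l l' e
    refine q_inj h hne l l' ?_
    have e1 := QuotientGroup.eq.1 e
    rw [Subgroup.mem_subgroupOf] at e1
    have e2 : (pw x y z l)⁻¹ * pw x y z l' ∈ D h b := e1
    rw [inv_self h] at e2
    exact (h.qs3 _ _ _).2 e2
  have := Nat.card_le_card_of_injective φ hinj
  have e2 : Nat.card T3 = 8 := by simp [T3, Nat.card_eq_fintype_card]
  rw [e2] at this
  exact this

end

variable {F : Type u} [Field F]

/-- the structure of a field with its norm groups and core, and with values in the Brauer group -/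
theorem setup_add (h2 : (2 : F) ≠ 0) (hfin : FinSq F) :
    ∃ (S : QData) (hS : IsQuat S) (φ : Fˣ →* S.G), IsStructureOf F S ∧ Finite S.G ∧
      Function.Surjective φ ∧ φ.ker = squares F ∧
      (∀ a : Fˣ, (D hS (φ a)).comap φ = normGroup a) ∧ fieldCore F = (Core S).comap φ ∧
      (∃ β : S.G → S.G → B2 F, Add S β) ∧
      ∀ H : Subgroup S.G, Closed S H → NormClosed (H.comap φ) := by
  obtain ⟨S, hS, hSfin, hSq, hβ, -, -⟩ := field_add h2 hfin
  obtain ⟨φ, hs, hk, hn, h0, hq⟩ := id hS
  have hz : ∀ a b : Fˣ, S.q (φ a) (φ b) = S.zero ↔ NormFrom a b := by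
    intro a b
    rw [← qiso_one h2, ← h0, ← map_one φ]
    exact hq a b 1 1
  refine ⟨S, hSq, φ, hS, hSfin, hs, ?_, fun a => ?_, core_comap h2 hs hk hSfin hz, hβ,
    fun H hH => ?_⟩
  · ext a
    rw [MonoidHom.mem_ker, hk, mem_squares]
  · ext c
    exact hz a c
  · obtain ⟨h1, h3⟩ := hH
    exact ⟨fun a ha => h1 _ ((index_two_iff hs hk hSfin hz a).1 ha),
      fun a ha => h3 _ ((sup_iff hs hk hz a H).1 ha)⟩

/-- the square classes outside the core whose norm groups have index more than eight -/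
def fE (F : Type u) [Field F] : Set (Fˣ ⧸ squares F) :=
  {x | ∃ a : Fˣ, (a : Fˣ ⧸ squares F) = x ∧ a ∉ fieldCore F ∧ 8 < (normGroup a).index}

/-- the square classes outside `H` whose norm groups meet `H` in a subgroup of index at least eight
in `H` -/
def fEE (H : Subgroup Fˣ) : Set (Fˣ ⧸ squares F) :=
  {x | ∃ a : Fˣ, (a : Fˣ ⧸ squares F) = x ∧ a ∉ H ∧ 8 ≤ (normGroup a).relIndex H}

/-- few square classes -/
def FewF (E : Set (Fˣ ⧸ squares F)) : Prop :=
  8 * E.ncard < (squares F).index ∨
    ∃ L : Subgroup (Fˣ ⧸ squares F), L ≠ ⊤ ∧ 16 * (E \ L).ncard < (squares F).index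

section
variable {S : QData} {φ : Fˣ →* S.G} [Finite S.G]

lemma few_transfer (hker : φ.ker = squares F) (hs : Function.Surjective φ)
    {E : Set (Fˣ ⧸ squares F)} {E' : Set S.G}
    (hE : ∀ a : Fˣ, φ a ∈ E' → (a : Fˣ ⧸ squares F) ∈ E) (hF : FewF E) : Few S E' := by
  obtain ⟨f, hfb, hfa⟩ := classes hker hs
  have hq : Finite (Fˣ ⧸ squares F) := Finite.of_injective f hfb.1
  have hcard : Nat.card S.G = (squares F).index := by
    rw [← hker, Subgroup.index_ker, MonoidHom.range_eq_top.2 hs, Subgroup.card_top]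
  rcases hF with hF | ⟨L, hL, hF⟩
  · left
    rw [hcard]
    refine lt_of_le_of_lt (Nat.mul_le_mul_left _ ?_) hF
    have hsub : E' ⊆ f '' E := by
      intro y hy
      obtain ⟨a, rfl⟩ := hs y
      exact ⟨_, hE a hy, hfa a⟩
    exact (Set.ncard_le_ncard hsub (Set.toFinite _)).trans (Set.ncard_image_le (Set.toFinite _))
  · right
    let M : Subgroup Fˣ := L.comap (QuotientGroup.mk' (squares F))
    have hM : squares F ≤ M := by
      intro a ha
      show (QuotientGroup.mk a : Fˣ ⧸ squares F) ∈ L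
      rw [(QuotientGroup.eq_one_iff a).2 ha]
      exact L.one_mem
    have hMc : (M.map φ).comap φ = M := Subgroup.comap_map_eq_self (by rw [hker]; exact hM)
    refine ⟨M.map φ, fun hc => hL ?_, ?_⟩
    · rw [hc, Subgroup.comap_top] at hMc
      refine eq_top_iff.2 fun x _ => ?_
      induction x using QuotientGroup.induction_on with
      | H a =>
        have : a ∈ M := by rw [← hMc]; trivial
        exact this
    · rw [hcard]
      refine lt_of_le_of_lt (Nat.mul_le_mul_left _ ?_) hF
      have hsub : E' \ (M.map φ) ⊆ f '' (E \ L) := by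
        rintro y ⟨hy, hy'⟩
        obtain ⟨a, rfl⟩ := hs y
        refine ⟨_, ⟨hE a hy, fun hc => hy' ?_⟩, hfa a⟩
        exact Subgroup.mem_map_of_mem φ (show a ∈ M from hc)
      exact (Set.ncard_le_ncard hsub (Set.toFinite _)).trans (Set.ncard_image_le (Set.toFinite _))

end

/-- the global form for fields -/
theorem field_few (h2 : (2 : F) ≠ 0) (hfin : FinSq F) (hF : FewF (fE F)) :
    ∃ S : QData, Elem S ∧ IsStructureOf F S := by
  obtain ⟨S, hS, φ, hst, hf, hs, hker, hD, hC, ⟨β, hβ⟩, -⟩ := setup_add h2 hfin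
  refine ⟨S, elem_idx hS hβ (few_transfer hker hs (E := fE F) (fun a ha => ?_) hF), hst⟩
  refine ⟨a, rfl, ?_, ?_⟩
  · rw [hC]
    exact ha.1
  · rw [← hD, Subgroup.index_comap_of_surjective _ hs]
    exact ha.2

/-- the local form for fields -/
theorem field_few_local (h2 : (2 : F) ≠ 0) (hfin : FinSq F)
    (hF : ∀ H : Subgroup Fˣ, NormClosed H → 8 ≤ H.index → FewF (fEE H)) :
    ∃ S : QData, Elem S ∧ IsStructureOf F S := by
  obtain ⟨S, hS, φ, hst, hf, hs, hker, hD, hC, ⟨β, hβ⟩, hcl⟩ := setup_add h2 hfin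
  refine ⟨S, elem_out hS hβ fun H hH h8 => ?_, hst⟩
  refine few_transfer hker hs (fun a ha => ?_) (hF _ (hcl H hH)
    (by rwa [Subgroup.index_comap_of_surjective _ hs]))
  refine ⟨a, rfl, ha.1, ?_⟩
  rw [← hD, Subgroup.relIndex_comap, Subgroup.map_comap_eq_self_of_surjective hs]
  exact relIndex_out hS ha

end Pool.Agent.Zk81.Out
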