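import Pool.Agent.Zk81.Out.Rel

/-! The main step modulo a subgroup of the graph, and value groups of index at most eight or of
index at most four modulo the core. -/

set_option autoImplicit false

namespace Pool.Agent.Zk81.Out

open Pool.Agent.H315R3.ETC Pool.Agent.TH673.VG Pool.Agent.R19.QS Pool.Agent.N88.ETC

variable {S : QData} {B : Type*} [AddCommGroup B] {β : S.G → S.G → B}

/-- sums of two points of the graph modulo `Γ` -/
def TwoG (Γ : AddSubgroup (B × ZMod 2)) (β : S.G → S.G → B) (χ : S.G → S.G → ZMod 2)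
    (H : Subgroup S.G) (T : B × ZMod 2) : Prop :=
  ∃ γ ∈ Γ, ∃ u ∈ H, ∃ u' ∈ H, ∃ t t' : S.G, T = γ + (ge β χ u t + ge β χ u' t')

section
variable (h : IsQuat S) (hB : Add S β) {H : Subgroup S.G} {χ : S.G → S.G → ZMod 2}
  (hχ : Sy S H χ) {w1 w2 w3 : S.G} (hw1 : w1 ∈ H) (hw2 : w2 ∈ H) (hw3 : w3 ∈ H)
  (Γ : AddSubgroup (B × ZMod 2))

/-- the subgroup `N_l` modulo `Γ` -/
def NG (l : T3) : Subgroup S.G where
  carrier := {x | ∃ t1 t2 t3 : S.G, ge β χ w1 t1 + (ge β χ w2 t2 + ge β χ w3 t3) ∈ Γ ∧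
    pw t1 t2 t3 l = x}
  one_mem' := by
    refine ⟨1, 1, 1, ?_, ?_⟩
    · rw [ge_one h hB hχ hw1, ge_one h hB hχ hw2, ge_one h hB hχ hw3, add_zero, add_zero]
      exact Γ.zero_mem
    · simp [pw]
  mul_mem' := by
    rintro x y ⟨t1, t2, t3, e, rfl⟩ ⟨s1, s2, s3, e', rfl⟩
    refine ⟨t1 * s1, t2 * s2, t3 * s3, ?_, pw_mul _ _ _ _ _ _ l⟩
    rw [ge_mul hB hχ hw1, ge_mul hB hχ hw2, ge_mul hB hχ hw3, add_add_add_comm (ge β χ w2 t2),
      add_add_add_comm]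
    exact Γ.add_mem e e'
  inv_mem' := by
    rintro x hx
    rw [inv_self h]
    exact hx

include h hB hχ hw1 hw2 hw3 in
lemma V_le_g {c l : T3} {b : S.G} (hb : ge β χ (pw w1 w2 w3 c) b ∈ Γ) (hl : par l c = true) :
    b ∈ NG h hB hχ hw1 hw2 hw3 Γ l := by
  refine ⟨_, _, _, ?_, (pw_par h.exp2 b c l).trans (by rw [hl]; rfl)⟩
  rw [ge_pw h hB hχ hw1 hw2 hw3]
  exact hb

include h hB hχ hw1 hw2 hw3 in
lemma not_mem_g {v1 v2 v3 : S.G}
    (hT : ¬ TwoG Γ β χ H (ge β χ w1 v1 + (ge β χ w2 v2 + ge β χ w3 v3))) {l : T3}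
    (hl : l ≠ (false, false, false)) : pw v1 v2 v3 l ∉ NG h hB hχ hw1 hw2 hw3 Γ l := by
  rintro ⟨t1, t2, t3, e, e'⟩
  apply hT
  set s1 := v1 * t1 with hs1
  set s2 := v2 * t2 with hs2
  set s3 := v3 * t3 with hs3
  set γ := ge β χ w1 t1 + (ge β χ w2 t2 + ge β χ w3 t3) with hγ
  have e1 : ge β χ w1 v1 + (ge β χ w2 v2 + ge β χ w3 v3) =
      γ + (ge β χ w1 s1 + (ge β χ w2 s2 + ge β χ w3 s3)) := by
    have e2 := g_two (B := B) hB γ
    have e3 : ge β χ w1 s1 + (ge β χ w2 s2 + ge β χ w3 s3) =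
        ge β χ w1 v1 + (ge β χ w2 v2 + ge β χ w3 v3) + γ := by
      rw [hs1, hs2, hs3, ge_mul hB hχ hw1, ge_mul hB hχ hw2, ge_mul hB hχ hw3,
        add_add_add_comm (ge β χ w2 v2), add_add_add_comm]
    rw [e3]
    calc ge β χ w1 v1 + (ge β χ w2 v2 + ge β χ w3 v3) =
          ge β χ w1 v1 + (ge β χ w2 v2 + ge β χ w3 v3) + (γ + γ) := by rw [e2, add_zero]
      _ = _ := by abel
  have e2 : pw s1 s2 s3 l = 1 := by
    rw [hs1, hs2, hs3, pw_mul, e', h.exp2]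
  rw [e1]
  have hinv : ∀ a b : S.G, a * b = 1 → a = b := fun a b hab => by
    rw [← inv_self h b]
    exact eq_inv_of_mul_eq_one_left hab
  have o1 := ge_one h hB hχ hw1
  have o2 := ge_one h hB hχ hw2
  have o3 := ge_one h hB hχ hw3
  obtain ⟨l1, l2, l3⟩ := l
  cases l1 <;> cases l2 <;> cases l3 <;> simp only [pw, cond_true, cond_false, one_mul, mul_one]
    at e2
  · exact absurd rfl hl
  · exact ⟨γ, e, w1, hw1, w2, hw2, s1, s2, by rw [e2, o3, add_zero]⟩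
  · exact ⟨γ, e, w1, hw1, w3, hw3, s1, s3, by rw [e2, o2, zero_add]⟩
  · refine ⟨γ, e, w1, hw1, w2 * w3, H.mul_mem hw2 hw3, s1, s2, ?_⟩
    rw [ge_mul' h hB hχ hw2 hw3, ← hinv _ _ e2]
  · exact ⟨γ, e, w2, hw2, w3, hw3, s2, s3, by rw [e2, o1, zero_add]⟩
  · refine ⟨γ, e, w1 * w3, H.mul_mem hw1 hw3, w2, hw2, s1, s2, ?_⟩
    rw [ge_mul' h hB hχ hw1 hw3, ← hinv _ _ e2]
    abel
  · refine ⟨γ, e, w1 * w2, H.mul_mem hw1 hw2, w3, hw3, s1, s3, ?_⟩
    rw [ge_mul' h hB hχ hw1 hw2, ← hinv _ _ e2]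
    abel
  · refine ⟨γ, e, w1 * w2, H.mul_mem hw1 hw2, w1 * w3, H.mul_mem hw1 hw3, s2, s3, ?_⟩
    rw [ge_mul' h hB hχ hw1 hw2, ge_mul' h hB hχ hw1 hw3, hinv _ _ e2, ge_mul hB hχ hw1]
    abel

end

/-- the elements `b` with `hh(b) = 1` such that no nontrivial product of `w1, w2, w3` is, at `b`, in
`Γ` -/
def ZG (Γ : AddSubgroup (B × ZMod 2)) (β : S.G → S.G → B) (χ : S.G → S.G → ZMod 2)
    (w1 w2 w3 : S.G) (hh : S.G → ZMod 2) : Set S.G :=
  {b | hh b = 1 ∧ ∀ c : T3, c ≠ (false, false, false) → ge β χ (pw w1 w2 w3 c) b ∉ Γ}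

section
variable (h : IsQuat S) (hB : Add S β) {H : Subgroup S.G} {χ : S.G → S.G → ZMod 2}
  (hχ : Sy S H χ) [Finite S.G] {w1 w2 w3 : S.G} (hw1 : w1 ∈ H) (hw2 : w2 ∈ H) (hw3 : w3 ∈ H)
  (Γ : AddSubgroup (B × ZMod 2))

include h hB hχ hw1 hw2 hw3

/-- the main step: a minimal sum of three points, whose second members are mapped to `1` -/
theorem stepg_odd {v1 v2 v3 : S.G}
    (hT : ¬ TwoG Γ β χ H (ge β χ w1 v1 + (ge β χ w2 v2 + ge β χ w3 v3)))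
    {hh : S.G → ZMod 2} (hhom : ∀ a b, hh (a * b) = hh a + hh b)
    (hv1 : hh v1 = 1) (hv2 : hh v2 = 1) (hv3 : hh v3 = 1) :
    Nat.card S.G ≤ 8 * (ZG Γ β χ w1 w2 w3 hh).ncard := by
  have h01 : ∀ u : ZMod 2, u = 0 ∨ u = 1 := by decide
  -- the homomorphisms vanishing on `N_l`
  have hf : ∀ l : T3, ∃ f : S.G → ZMod 2, (∀ a b, f (a * b) = f a + f b) ∧
      (l = (false, false, false) → ∀ a, f a = 0) ∧ (l ≠ (false, false, false) →
      (∀ n ∈ NG h hB hχ hw1 hw2 hw3 Γ l, f n = 0) ∧ f (pw v1 v2 v3 l) = 1) := by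
    intro l
    by_cases hl : l = (false, false, false)
    · exact ⟨fun _ => 0, fun _ _ => (add_zero 0).symm, fun _ _ => rfl, fun hc => absurd hl hc⟩
    · obtain ⟨f, hf1, hf2, hf3⟩ := exists_char h (not_mem_g h hB hχ hw1 hw2 hw3 Γ hT hl) 1
      exact ⟨f, hf1, fun hc => absurd hc hl, fun _ => ⟨hf2, hf3⟩⟩
  choose f hf1 hf0 hf2 using hf
  have hl0 : ∀ {l c : T3}, par l c = true → l ≠ (false, false, false) := by
    rintro l c hlc rfl
    simp [par] at hlc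
  have hP : ∀ P : T3, par P (true, true, true) = true → hh (pw v1 v2 v3 P) = 1 := by
    intro P hP
    rw [hom_pw hhom, hv1, hv2, hv3, par_comm]
    exact hP
  have hZ : ∀ l1 l2 l3 : T3, Sp3 l1 l2 l3 → ∀ b, hh b = 1 → f l1 b = 1 → f l2 b = 1 →
      f l3 b = 1 → b ∈ ZG Γ β χ w1 w2 w3 hh := by
    intro l1 l2 l3 hsp b hb e1 e2 e3
    refine ⟨hb, fun c hc hq => ?_⟩
    have key : ∀ l : T3, par l c = true → f l b = 1 → False := by
      intro l hl e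
      have := (hf2 l (hl0 hl)).1 _ (V_le_g h hB hχ hw1 hw2 hw3 Γ hq hl)
      rw [e] at this
      exact absurd this (by decide)
    rcases hsp c hc with k | k | k
    · exact key l1 k e1
    · exact key l2 k e2
    · exact key l3 k e3
  -- two spanning points
  let Q : S.G → Prop := fun b => ∀ c : T3, c ≠ (false, false, false) →
    ∃ l, f l b = 1 ∧ par l c = true
  have hQ : ∀ b, Q b → hh b = 1 → b ∈ ZG Γ β χ w1 w2 w3 hh := by
    intro b hb hb1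
    obtain ⟨l1, l2, l3, m1, m2, m3, hall⟩ := three (fun l => f l b = 1) hb
    exact hZ l1 l2 l3 hall b hb1 m1 m2 m3
  obtain ⟨P, P', hP1, hP2, hPP, hQ1, hQ2⟩ := pick_two (fun P => Q (pw v1 v2 v3 P)) (by
    intro P1 P2 P3 hodd
    by_contra hcon
    push Not at hcon
    obtain ⟨n1, n2, n3⟩ := hcon
    have hne : ∀ P, ¬ Q (pw v1 v2 v3 P) → ∃ c : T3, c ≠ (false, false, false) ∧
        ∀ l, par l c = true → ¬ f l (pw v1 v2 v3 P) = 1 := by
      intro P hn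
      by_contra hc
      push Not at hc
      refine hn fun c hc0 => ?_
      obtain ⟨l, hl, hl'⟩ := hc c hc0
      exact ⟨l, hl', hl⟩
    obtain ⟨c1, d1, k1⟩ := hne P1 n1
    obtain ⟨c2, d2, k2⟩ := hne P2 n2
    obtain ⟨c3, d3, k3⟩ := hne P3 n3
    obtain ⟨l, hl, hF⟩ := two_pts P1 P2 P3 hodd c1 d1 c2 d2 c3 d3
    have hF' := hF (decide (f l v1 = 1), decide (f l v2 = 1), decide (f l v3 = 1))
      ((hom_pw (hf1 l) v1 v2 v3 l).1 (hf2 l hl).2)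
    rcases hF' with e | e | e
    · exact k1 l e.1 ((hom_pw (hf1 l) v1 v2 v3 P1).2 e.2)
    · exact k2 l e.1 ((hom_pw (hf1 l) v1 v2 v3 P2).2 e.2)
    · exact k3 l e.1 ((hom_pw (hf1 l) v1 v2 v3 P3).2 e.2))
  set p := pw v1 v2 v3 P with hp
  set p' := pw v1 v2 v3 P' with hp'
  have hhp : hh p = 1 := hP P hP1
  have hhp' : hh p' = 1 := hP P' hP2
  obtain ⟨l1, l2, l3, m1, m2, m3, hall⟩ := three (fun l => f l p = 1) hQ1
  have hf4 : ∀ i x y, (![f l1, f l2, f l3, hh] : Fin 4 → S.G → ZMod 2) i (x * y) =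
      (![f l1, f l2, f l3, hh] : Fin 4 → S.G → ZMod 2) i x +
      (![f l1, f l2, f l3, hh] : Fin 4 → S.G → ZMod 2) i y := by
    intro i
    fin_cases i
    · exact hf1 l1
    · exact hf1 l2
    · exact hf1 l3
    · exact hhom
  by_cases hidx : ∃ K : Subgroup S.G, K.index ≤ 8 ∧
      ∀ g ∈ K, f l1 g = 0 ∧ f l2 g = 0 ∧ f l3 g = 0 ∧ hh g = 0
  · obtain ⟨K, hK, hK0⟩ := hidx
    refine card_cosets h (r := 1) (n := 8) (K := K) hK (q := fun _ => p)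
      (fun i j _ => Subsingleton.elim _ _) fun _ k hk => ?_
    obtain ⟨z1, z2, z3, z4⟩ := hK0 k hk
    refine hZ l1 l2 l3 hall _ ?_ ?_ ?_ ?_
    · rw [hhom, hhp, z4]; decide
    · rw [hf1, m1, z1]; decide
    · rw [hf1, m2, z2]; decide
    · rw [hf1, m3, z3]; decide
  push Not at hidx
  have hidx' : ∀ K : Subgroup S.G, K.index ≤ 8 →
      ∃ g ∈ K, ¬ (f l1 g = 0 ∧ f l2 g = 0 ∧ f l3 g = 0 ∧ hh g = 0) := by
    intro K hK
    obtain ⟨g, hg, hg'⟩ := hidx K hK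
    exact ⟨g, hg, fun hc => hg' hc.1 hc.2.1 hc.2.2.1 hc.2.2.2⟩
  by_cases hv : ∀ l : T3, ∀ k, f l1 k = 0 → f l2 k = 0 → f l3 k = 0 → hh k = 0 → f l k = 0
  · obtain ⟨K, hK, hK0⟩ := ker_fin (S := S) (f := ![f l1, f l2, f l3, hh]) hf4
    have hv' : ∀ l : T3, ∀ k ∈ K, f l k = 0 := fun l k hk =>
      hv l k ((hK0 k).1 hk 0) ((hK0 k).1 hk 1) ((hK0 k).1 hk 2) ((hK0 k).1 hk 3)
    have hno : p * p' ∉ K := by
      intro hc
      have hxor : (P.1 ^^ P'.1, P.2.1 ^^ P'.2.1, P.2.2 ^^ P'.2.2) ≠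
          ((false, false, false) : T3) := fun hc => hPP (xor_eq _ _ hc)
      have e := (hf2 _ hxor).2
      rw [pw_xor h.exp2, hv' _ _ hc] at e
      exact absurd e (by decide)
    refine card_cosets h (r := 2) (n := 8) (K := K) hK (q := ![p, p']) ?_ ?_
    · intro i j hij
      fin_cases i <;> fin_cases j
      · rfl
      · exact absurd hij hno
      · exact absurd (by rw [mul_comm]; exact hij) hno
      · rfl
    · intro i k hk
      have k4 : hh k = 0 := (hK0 k).1 hk 3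
      fin_cases i
      · show p * k ∈ _
        refine hQ _ (fun c hc => ?_) (by rw [hhom, hhp, k4]; decide)
        obtain ⟨l, e1, e2⟩ := hQ1 c hc
        exact ⟨l, by rw [hf1, e1, hv' l k hk]; decide, e2⟩
      · show p' * k ∈ _
        refine hQ _ (fun c hc => ?_) (by rw [hhom, hhp', k4]; decide)
        obtain ⟨l, e1, e2⟩ := hQ2 c hc
        exact ⟨l, by rw [hf1, e1, hv' l k hk]; decide, e2⟩
  · push Not at hv
    obtain ⟨m, k0, k1, k2, k3, k4, km⟩ := hv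
    have km1 : f m k0 = 1 := by
      rcases h01 (f m k0) with e | e
      · exact absurd e km
      · exact e
    have hm0 : m ≠ (false, false, false) := fun hc => km (hf0 m hc k0)
    have hm1 : m ≠ l1 := fun hc => km (by rw [hc]; exact k1)
    have hm2 : m ≠ l2 := fun hc => km (by rw [hc]; exact k2)
    have hm3 : m ≠ l3 := fun hc => km (by rw [hc]; exact k3)
    have swap12 : ∀ {a b c : T3}, Sp3 a b c → Sp3 b a c := by
      intro a b c hs d hd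
      rcases hs d hd with k | k | k
      · exact Or.inr (Or.inl k)
      · exact Or.inl k
      · exact Or.inr (Or.inr k)
    have swap23 : ∀ {a b c : T3}, Sp3 a b c → Sp3 a c b := by
      intro a b c hs d hd
      rcases hs d hd with k | k | k
      · exact Or.inl k
      · exact Or.inr (Or.inr k)
      · exact Or.inr (Or.inl k)
    rcases exch l1 l2 l3 m hall hm0 hm1 hm2 hm3 with ⟨s1, s2⟩ | ⟨s1, s2⟩ | ⟨s1, s2⟩
    · exact count_four h (hf1 l1) (hf1 l2) (hf1 l3) hhom (hf1 m) m1 m2 m3 hhp k1 k2 k3 k4 km1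
        hidx' (hZ _ _ _ hall) (hZ _ _ _ s1) (hZ _ _ _ s2)
    · refine count_four h (hf1 l1) (hf1 l3) (hf1 l2) hhom (hf1 m) m1 m3 m2 hhp k1 k3 k2 k4 km1
        (fun K hK => ?_) (hZ _ _ _ (swap23 hall)) (hZ _ _ _ (swap23 s1)) (hZ _ _ _ (swap23 s2))
      obtain ⟨g, hg, hg'⟩ := hidx' K hK
      exact ⟨g, hg, fun hc => hg' ⟨hc.1, hc.2.2.1, hc.2.1, hc.2.2.2⟩⟩
    · refine count_four h (hf1 l2) (hf1 l3) (hf1 l1) hhom (hf1 m) m2 m3 m1 hhp k2 k3 k1 k4 km1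
        (fun K hK => ?_) (hZ _ _ _ (swap23 (swap12 hall))) (hZ _ _ _ (swap23 (swap12 s1)))
        (hZ _ _ _ (swap23 (swap12 s2)))
      obtain ⟨g, hg, hg'⟩ := hidx' K hK
      exact ⟨g, hg, fun hc => hg' ⟨hc.2.2.1, hc.1, hc.2.1, hc.2.2.2⟩⟩

/-- the case `hh(v1) = 1` -/
theorem stepg_one {v1 v2 v3 : S.G}
    (hT : ¬ TwoG Γ β χ H (ge β χ w1 v1 + (ge β χ w2 v2 + ge β χ w3 v3)))
    {hh : S.G → ZMod 2} (hhom : ∀ a b, hh (a * b) = hh a + hh b) (hv1 : hh v1 = 1) :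
    ∃ u1 ∈ H, ∃ u2 ∈ H, ∃ u3 ∈ H, Nat.card S.G ≤ 8 * (ZG Γ β χ u1 u2 u3 hh).ncard := by
  have h01 : ∀ u : ZMod 2, u = 0 ∨ u = 1 := by decide
  have h11 : (0 : ZMod 2) + 1 = 1 := by decide
  have g2 := g_two (B := B) hB
  rcases h01 (hh v2) with k2 | k2 <;> rcases h01 (hh v3) with k3 | k3
  · refine ⟨w1 * (w2 * w3), H.mul_mem hw1 (H.mul_mem hw2 hw3), w2, hw2, w3, hw3,
      stepg_odd h hB hχ (H.mul_mem hw1 (H.mul_mem hw2 hw3)) hw2 hw3 Γ (v1 := v1) (v2 := v2 * v1)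
        (v3 := v3 * v1) ?_ hhom hv1 (by rw [hhom, k2, hv1, h11]) (by rw [hhom, k3, hv1, h11])⟩
    intro hc
    apply hT
    convert hc using 1
    rw [ge_mul' h hB hχ hw1 (H.mul_mem hw2 hw3), ge_mul' h hB hχ hw2 hw3, ge_mul hB hχ hw2,
      ge_mul hB hχ hw3]
    have e1 := g2 (ge β χ w2 v1)
    have e2 := g2 (ge β χ w3 v1)
    calc ge β χ w1 v1 + (ge β χ w2 v2 + ge β χ w3 v3) = ge β χ w1 v1 + (ge β χ w2 v2 +
          ge β χ w3 v3) + (ge β χ w2 v1 + ge β χ w2 v1) + (ge β χ w3 v1 + ge β χ w3 v1) := by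
          rw [e1, e2, add_zero, add_zero]
      _ = _ := by abel
  · refine ⟨w1 * w2, H.mul_mem hw1 hw2, w2, hw2, w3, hw3,
      stepg_odd h hB hχ (H.mul_mem hw1 hw2) hw2 hw3 Γ (v1 := v1) (v2 := v2 * v1)
        (v3 := v3) ?_ hhom hv1 (by rw [hhom, k2, hv1, h11]) k3⟩
    intro hc
    apply hT
    convert hc using 1
    rw [ge_mul' h hB hχ hw1 hw2, ge_mul hB hχ hw2]
    have e1 := g2 (ge β χ w2 v1)
    calc ge β χ w1 v1 + (ge β χ w2 v2 + ge β χ w3 v3) = ge β χ w1 v1 + (ge β χ w2 v2 +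
          ge β χ w3 v3) + (ge β χ w2 v1 + ge β χ w2 v1) := by rw [e1, add_zero]
      _ = _ := by abel
  · refine ⟨w1 * w3, H.mul_mem hw1 hw3, w2, hw2, w3, hw3,
      stepg_odd h hB hχ (H.mul_mem hw1 hw3) hw2 hw3 Γ (v1 := v1) (v2 := v2)
        (v3 := v3 * v1) ?_ hhom hv1 k2 (by rw [hhom, k3, hv1, h11])⟩
    intro hc
    apply hT
    convert hc using 1
    rw [ge_mul' h hB hχ hw1 hw3, ge_mul hB hχ hw3]
    have e2 := g2 (ge β χ w3 v1)
    calc ge β χ w1 v1 + (ge β χ w2 v2 + ge β χ w3 v3) = ge β χ w1 v1 + (ge β χ w2 v2 +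
          ge β χ w3 v3) + (ge β χ w3 v1 + ge β χ w3 v1) := by rw [e2, add_zero]
      _ = _ := by abel
  · exact ⟨w1, hw1, w2, hw2, w3, hw3, stepg_odd h hB hχ hw1 hw2 hw3 Γ hT hhom hv1 k2 k3⟩

/-- the case `hh(v_i) = 1` for some `i` -/
theorem stepg_some {v1 v2 v3 : S.G}
    (hT : ¬ TwoG Γ β χ H (ge β χ w1 v1 + (ge β χ w2 v2 + ge β χ w3 v3)))
    {hh : S.G → ZMod 2} (hhom : ∀ a b, hh (a * b) = hh a + hh b)
    (hv : hh v1 = 1 ∨ hh v2 = 1 ∨ hh v3 = 1) :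
    ∃ u1 ∈ H, ∃ u2 ∈ H, ∃ u3 ∈ H, Nat.card S.G ≤ 8 * (ZG Γ β χ u1 u2 u3 hh).ncard := by
  rcases hv with hv | hv | hv
  · exact stepg_one h hB hχ hw1 hw2 hw3 Γ hT hhom hv
  · refine stepg_one h hB hχ hw2 hw1 hw3 Γ (v1 := v2) (v2 := v1) (v3 := v3) (fun hc => hT ?_) hhom hv
    convert hc using 1
    abel
  · refine stepg_one h hB hχ hw3 hw1 hw2 Γ (v1 := v3) (v2 := v1) (v3 := v2) (fun hc => hT ?_) hhom hv
    convert hc using 1
    abel

/-- a minimal sum of three points and a nonzero homomorphism -/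
theorem stepg_all {v1 v2 v3 : S.G}
    (hT : ¬ TwoG Γ β χ H (ge β χ w1 v1 + (ge β χ w2 v2 + ge β χ w3 v3)))
    {hh : S.G → ZMod 2} (hhom : ∀ a b, hh (a * b) = hh a + hh b) {b0 : S.G} (hb0 : hh b0 = 1) :
    ∃ u1 ∈ H, ∃ u2 ∈ H, ∃ u3 ∈ H, Nat.card S.G ≤ 8 * (ZG Γ β χ u1 u2 u3 hh).ncard := by
  have h01 : ∀ u : ZMod 2, u = 0 ∨ u = 1 := by decide
  by_cases hv : hh v1 = 1 ∨ hh v2 = 1 ∨ hh v3 = 1
  · exact stepg_some h hB hχ hw1 hw2 hw3 Γ hT hhom hv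
  have hv0 : ∀ v, ¬ hh v = 1 → hh v = 0 := fun v hv => by
    rcases h01 (hh v) with e | e
    · exact e
    · exact absurd e hv
  push Not at hv
  obtain ⟨hv1, hv2, hv3⟩ := hv
  by_cases hall : ∀ b : S.G, hh b = 1 → b ∈ ZG Γ β χ w1 w2 w3 hh
  · refine ⟨w1, hw1, w2, hw2, w3, hw3, ?_⟩
    obtain ⟨K, hK, hK0⟩ := ker_fin (S := S) (f := ![hh]) (by
      intro i
      fin_cases i
      exact hhom)
    refine card_cosets h (r := 1) (n := 8) (K := K) (le_trans hK (by norm_num))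
      (q := fun _ => b0) (fun i j _ => Subsingleton.elim _ _) fun _ k hk => hall _ ?_
    have : hh k = 0 := (hK0 k).1 hk 0
    rw [hhom, hb0, this, add_zero]
  push Not at hall
  obtain ⟨b, hb, hbO⟩ := hall
  obtain ⟨c, hc, hq⟩ : ∃ c : T3, c ≠ (false, false, false) ∧
      ge β χ (pw w1 w2 w3 c) b ∈ Γ := by
    by_contra hcon
    push Not at hcon
    exact hbO ⟨hb, hcon⟩
  have e : ge β χ w1 (v1 * (bif c.1 then b else 1)) + (ge β χ w2 (v2 * (bif c.2.1 then b else 1)) +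
      ge β χ w3 (v3 * (bif c.2.2 then b else 1))) =
      ge β χ w1 v1 + (ge β χ w2 v2 + ge β χ w3 v3) + ge β χ (pw w1 w2 w3 c) b := by
    rw [ge_mul hB hχ hw1, ge_mul hB hχ hw2, ge_mul hB hχ hw3,
      add_add_add_comm (ge β χ w2 v2), add_add_add_comm, ge_pw h hB hχ hw1 hw2 hw3]
  have hT' : ¬ TwoG Γ β χ H (ge β χ w1 (v1 * (bif c.1 then b else 1)) +
      (ge β χ w2 (v2 * (bif c.2.1 then b else 1)) +
      ge β χ w3 (v3 * (bif c.2.2 then b else 1)))) := by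
    rw [e]
    rintro ⟨γ, hγ, u, hu, u', hu', t, t', e'⟩
    refine hT ⟨γ + ge β χ (pw w1 w2 w3 c) b, Γ.add_mem hγ hq, u, hu, u', hu', t, t', ?_⟩
    have e2 := g_two (B := B) hB (ge β χ (pw w1 w2 w3 c) b)
    calc ge β χ w1 v1 + (ge β χ w2 v2 + ge β χ w3 v3) =
          (ge β χ w1 v1 + (ge β χ w2 v2 + ge β χ w3 v3) + ge β χ (pw w1 w2 w3 c) b) +
          ge β χ (pw w1 w2 w3 c) b := by rw [add_assoc (ge β χ w1 v1 + _), e2, add_zero]
      _ = _ := by rw [e']; abel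
  refine stepg_some h hB hχ hw1 hw2 hw3 Γ hT' hhom ?_
  have k : ∀ v, ¬ hh v = 1 → hh (v * b) = 1 := fun v hv => by rw [hhom, hv0 v hv, hb, zero_add]
  obtain ⟨c1, c2, c3⟩ := c
  cases c1
  · cases c2
    · cases c3
      · exact absurd rfl hc
      · exact Or.inr (Or.inr (k _ hv3))
    · exact Or.inr (Or.inl (k _ hv2))
  · exact Or.inl (k _ hv1)

end


end Pool.Agent.Zk81.Out
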