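import Pool.Agent.N88.ETC.Sixteen
import Pool.Agent.R19.QS.Eight
import Pool.Agent.Zk81.Out.Fano

/-! Symbols on a subgroup `H` are functions of the quaternions if few elements outside `H` have
at least eight values on `H`. -/

set_option autoImplicit false

namespace Pool.Agent.Zk81.Out

open Pool.Agent.H315R3.ETC Pool.Agent.TH673.VG Pool.Agent.R19.QS Pool.Agent.N88.ETC

/-- the elements `b` outside `H` such that for some `x, y, z` in `H` the eight products of `x, y, z`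
lie in different cosets of `V(b)` -/
def Out (S : QData) (H : Subgroup S.G) : Set S.G :=
  {b | b ∉ H ∧ ∃ x ∈ H, ∃ y ∈ H, ∃ z ∈ H, ∀ c : T3, c ≠ (false, false, false) →
    S.q b (pw x y z c) ≠ S.zero}

variable {S : QData} {B : Type*} [AddCommGroup B] {β : S.G → S.G → B}

/-- a point of the graph -/
def ge (β : S.G → S.G → B) (χ : S.G → S.G → ZMod 2) (w v : S.G) : B × ZMod 2 := (β w v, χ w v)

/-- sums of `n` points of the graph -/
def SN (β : S.G → S.G → B) (χ : S.G → S.G → ZMod 2) (H : Subgroup S.G) : ℕ → Set (B × ZMod 2)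
  | 0 => {0}
  | n + 1 => {p | ∃ r ∈ SN β χ H n, ∃ w ∈ H, ∃ v, p = ge β χ w v + r}

/-- sums of two points of the graph -/
def Two (β : S.G → S.G → B) (χ : S.G → S.G → ZMod 2) (H : Subgroup S.G) (T : B × ZMod 2) : Prop :=
  ∃ u ∈ H, ∃ u' ∈ H, ∃ t t' : S.G, T = ge β χ u t + ge β χ u' t'

/-- counting cosets -/
lemma card_cosets (h : IsQuat S) [Finite S.G] {K : Subgroup S.G} {r n : ℕ}
    (hn : K.index ≤ n * r) {q : Fin r → S.G} (hq : ∀ i j, q i * q j ∈ K → i = j) {Y : Set S.G}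
    (hY : ∀ i, ∀ k ∈ K, q i * k ∈ Y) : Nat.card S.G ≤ n * Y.ncard := by
  have h1 : r * Nat.card K ≤ Y.ncard := by
    let F : Fin r × K → Y := fun z => ⟨q z.1 * z.2, hY z.1 z.2 z.2.2⟩
    have hinj : Function.Injective F := by
      rintro ⟨i, k⟩ ⟨j, k'⟩ e
      have e1 : q i * k = q j * k' := congrArg Subtype.val e
      have e2 : q i * q j = k' * k := by
        calc q i * q j = (q i * k) * (q j * k) := by
              rw [mul_mul_mul_comm, h.exp2, mul_one]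
          _ = (q j * k') * (q j * k) := by rw [e1]
          _ = k' * k := by rw [mul_mul_mul_comm, h.exp2, one_mul]
      have hij : i = j := hq i j (by rw [e2]; exact K.mul_mem k'.2 k.2)
      subst hij
      have e3 : (k : S.G) = k' := mul_left_cancel e1
      rw [Subtype.ext e3]
    have := Nat.card_le_card_of_injective F hinj
    rw [Nat.card_prod, Nat.card_fin, Nat.card_coe_set_eq] at this
    exact this
  calc Nat.card S.G = Nat.card K * K.index := (Subgroup.card_mul_index K).symm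
    _ ≤ Nat.card K * (n * r) := Nat.mul_le_mul_left _ hn
    _ = n * (r * Nat.card K) := by ring
    _ ≤ n * Y.ncard := Nat.mul_le_mul_left _ h1

/-- the kernel of finitely many homomorphisms -/
lemma ker_fin {n : ℕ} {f : Fin n → S.G → ZMod 2} (hf : ∀ i a b, f i (a * b) = f i a + f i b) :
    ∃ K : Subgroup S.G, K.index ≤ 2 ^ n ∧ ∀ k, k ∈ K ↔ ∀ i, f i k = 0 := by
  let φ : S.G →* Multiplicative (Fin n → ZMod 2) :=
    { toFun := fun g => Multiplicative.ofAdd fun i => f i g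
      map_one' := by
        have h0 : ∀ i, f i 1 = 0 := fun i => by
          have := hf i 1 1
          rw [mul_one] at this
          exact left_eq_add.1 this
        show Multiplicative.ofAdd _ = 1
        rw [← ofAdd_zero]
        congr 1
        funext i
        exact h0 i
      map_mul' := by
        intro a b
        show Multiplicative.ofAdd _ = Multiplicative.ofAdd _ * Multiplicative.ofAdd _
        rw [← ofAdd_add]
        congr 1
        funext i
        exact hf i a b }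
  refine ⟨φ.ker, ?_, fun k => ?_⟩
  · rw [Subgroup.index_ker]
    calc Nat.card φ.range ≤ Nat.card (Multiplicative (Fin n → ZMod 2)) :=
          Nat.card_le_card_of_injective _ Subtype.val_injective
      _ = 2 ^ n := by simp [Nat.card_eq_fintype_card]
  · rw [MonoidHom.mem_ker]
    constructor
    · intro hk i
      exact congrFun (Multiplicative.ofAdd.injective (hk.trans ofAdd_zero.symm)) i
    · intro hk
      show Multiplicative.ofAdd _ = 1
      rw [← ofAdd_zero]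
      congr 1
      funext i
      exact hk i

/-- a neighbouring point -/
lemma nbr {a b c e m : S.G → ZMod 2} (ha : ∀ x y, a (x * y) = a x + a y)
    (hb : ∀ x y, b (x * y) = b x + b y) (hc : ∀ x y, c (x * y) = c x + c y)
    (he : ∀ x y, e (x * y) = e x + e y) (hm : ∀ x y, m (x * y) = m x + m y) {p k0 : S.G}
    (pa : a p = 1) (pb : b p = 1) (pc : c p = 1) (pe : e p = 1) (ka : a k0 = 0) (kb : b k0 = 0)
    (kc : c k0 = 0) (ke : e k0 = 0) (km : m k0 = 1)
    (hidx : ∀ K : Subgroup S.G, K.index ≤ 8 →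
      ∃ g ∈ K, ¬ (a g = 0 ∧ b g = 0 ∧ c g = 0 ∧ e g = 0)) :
    ∃ q, a q = 1 ∧ b q = 1 ∧ c q = 1 ∧ e q = 0 ∧ m q = 1 := by
  have h01 : ∀ u : ZMod 2, u = 0 ∨ u = 1 := by decide
  obtain ⟨K, hK, hK0⟩ := ker_fin (S := S) (f := ![a, b, c]) (by
    intro i
    fin_cases i
    · exact ha
    · exact hb
    · exact hc)
  obtain ⟨g, hg, hg0⟩ := hidx K hK
  have z1 : a g = 0 := (hK0 g).1 hg 0
  have z2 : b g = 0 := (hK0 g).1 hg 1
  have z3 : c g = 0 := (hK0 g).1 hg 2
  have z4 : e g = 1 := by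
    rcases h01 (e g) with k | k
    · exact absurd ⟨z1, z2, z3, k⟩ hg0
    · exact k
  rcases h01 (m (p * g)) with k | k
  · refine ⟨p * g * k0, ?_, ?_, ?_, ?_, ?_⟩
    · rw [ha, ha, pa, z1, ka]; decide
    · rw [hb, hb, pb, z2, kb]; decide
    · rw [hc, hc, pc, z3, kc]; decide
    · rw [he, he, pe, z4, ke]; decide
    · rw [hm, k, km]; decide
  · refine ⟨p * g, ?_, ?_, ?_, ?_, k⟩
    · rw [ha, pa, z1]; decide
    · rw [hb, pb, z2]; decide
    · rw [hc, pc, z3]; decide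
    · rw [he, pe, z4]; decide

/-- four cosets of a subgroup of index at most `32` -/
lemma count_four (h : IsQuat S) [Finite S.G] {u1 u2 u3 c m : S.G → ZMod 2}
    (f1 : ∀ x y, u1 (x * y) = u1 x + u1 y) (f2 : ∀ x y, u2 (x * y) = u2 x + u2 y)
    (f3 : ∀ x y, u3 (x * y) = u3 x + u3 y) (f4 : ∀ x y, c (x * y) = c x + c y)
    (f5 : ∀ x y, m (x * y) = m x + m y) {p k0 : S.G} (p1 : u1 p = 1) (p2 : u2 p = 1)
    (p3 : u3 p = 1) (p4 : c p = 1) (k1 : u1 k0 = 0) (k2 : u2 k0 = 0) (k3 : u3 k0 = 0)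
    (k4 : c k0 = 0) (km : m k0 = 1)
    (hidx : ∀ K : Subgroup S.G, K.index ≤ 8 →
      ∃ g ∈ K, ¬ (u1 g = 0 ∧ u2 g = 0 ∧ u3 g = 0 ∧ c g = 0)) {Y : Set S.G}
    (hY1 : ∀ b, c b = 1 → u1 b = 1 → u2 b = 1 → u3 b = 1 → b ∈ Y)
    (hY2 : ∀ b, c b = 1 → m b = 1 → u2 b = 1 → u3 b = 1 → b ∈ Y)
    (hY3 : ∀ b, c b = 1 → u1 b = 1 → m b = 1 → u3 b = 1 → b ∈ Y) :
    Nat.card S.G ≤ 8 * Y.ncard := by
  obtain ⟨q1, a1, a2, a3, a4, a5⟩ := nbr f2 f3 f4 f1 f5 p2 p3 p4 p1 k2 k3 k4 k1 km (by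
    intro K hK
    obtain ⟨g, hg, hg0⟩ := hidx K hK
    exact ⟨g, hg, fun hc => hg0 ⟨hc.2.2.2, hc.1, hc.2.1, hc.2.2.1⟩⟩)
  obtain ⟨q2, b1, b2, b3, b4, b5⟩ := nbr f1 f3 f4 f2 f5 p1 p3 p4 p2 k1 k3 k4 k2 km (by
    intro K hK
    obtain ⟨g, hg, hg0⟩ := hidx K hK
    exact ⟨g, hg, fun hc => hg0 ⟨hc.1, hc.2.2.2, hc.2.1, hc.2.2.1⟩⟩)
  obtain ⟨K, hK, hK0⟩ := ker_fin (S := S) (f := ![u1, u2, u3, c, m]) (by
    intro i
    fin_cases i
    · exact f1
    · exact f2
    · exact f3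
    · exact f4
    · exact f5)
  have z : ∀ k ∈ K, u1 k = 0 ∧ u2 k = 0 ∧ u3 k = 0 ∧ c k = 0 ∧ m k = 0 := fun k hk =>
    ⟨(hK0 k).1 hk 0, (hK0 k).1 hk 1, (hK0 k).1 hk 2, (hK0 k).1 hk 3, (hK0 k).1 hk 4⟩
  have hadd : ∀ x y : ZMod 2, x + y = 0 → x = y := by decide
  refine card_cosets h (r := 4) (K := K) (n := 8) hK (q := ![p, p * k0, q1, q2]) ?_ ?_
  · have hv : ∀ a b : S.G, a * b ∈ K → u1 a = u1 b ∧ u2 a = u2 b ∧ m a = m b := by
      intro a b hab
      obtain ⟨z1, z2, -, -, z5⟩ := z _ hab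
      rw [f1] at z1
      rw [f2] at z2
      rw [f5] at z5
      exact ⟨hadd _ _ z1, hadd _ _ z2, hadd _ _ z5⟩
    have v2 : u1 (p * k0) = 1 := by rw [f1, p1, k1]; decide
    have v3 : u2 (p * k0) = 1 := by rw [f2, p2, k2]; decide
    have v4 : m (p * k0) = m p + 1 := by rw [f5, km]
    have hne : ∀ x : ZMod 2, x ≠ x + 1 := by decide
    have h10 : (1 : ZMod 2) ≠ 0 := by decide
    have n1 : p * (p * k0) ∉ K := fun hc => hne _ ((hv _ _ hc).2.2.trans v4)
    have n2 : p * q1 ∉ K := fun hc => h10 (p1.symm.trans ((hv _ _ hc).1.trans a4))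
    have n3 : p * q2 ∉ K := fun hc => h10 (p2.symm.trans ((hv _ _ hc).2.1.trans b4))
    have n4 : p * k0 * q1 ∉ K := fun hc => h10 (v2.symm.trans ((hv _ _ hc).1.trans a4))
    have n5 : p * k0 * q2 ∉ K := fun hc => h10 (v3.symm.trans ((hv _ _ hc).2.1.trans b4))
    have n6 : q1 * q2 ∉ K := fun hc => h10 (b1.symm.trans ((hv _ _ hc).1.symm.trans a4))
    intro i j hij
    fin_cases i <;> fin_cases j
    · rfl
    · exact absurd hij n1
    · exact absurd hij n2
    · exact absurd hij n3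
    · exact absurd (by rw [mul_comm]; exact hij) n1
    · rfl
    · exact absurd hij n4
    · exact absurd hij n5
    · exact absurd (by rw [mul_comm]; exact hij) n2
    · exact absurd (by rw [mul_comm]; exact hij) n4
    · rfl
    · exact absurd hij n6
    · exact absurd (by rw [mul_comm]; exact hij) n3
    · exact absurd (by rw [mul_comm]; exact hij) n5
    · exact absurd (by rw [mul_comm]; exact hij) n6
    · rfl
  · intro i k hk
    obtain ⟨z1, z2, z3, z4, z5⟩ := z k hk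
    fin_cases i
    · refine hY1 _ ?_ ?_ ?_ ?_
      · show c (p * k) = 1
        rw [f4, p4, z4]; decide
      · show u1 (p * k) = 1
        rw [f1, p1, z1]; decide
      · show u2 (p * k) = 1
        rw [f2, p2, z2]; decide
      · show u3 (p * k) = 1
        rw [f3, p3, z3]; decide
    · refine hY1 _ ?_ ?_ ?_ ?_
      · show c (p * k0 * k) = 1
        rw [f4, f4, p4, k4, z4]; decide
      · show u1 (p * k0 * k) = 1
        rw [f1, f1, p1, k1, z1]; decide
      · show u2 (p * k0 * k) = 1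
        rw [f2, f2, p2, k2, z2]; decide
      · show u3 (p * k0 * k) = 1
        rw [f3, f3, p3, k3, z3]; decide
    · refine hY2 _ ?_ ?_ ?_ ?_
      · show c (q1 * k) = 1
        rw [f4, a3, z4]; decide
      · show m (q1 * k) = 1
        rw [f5, a5, z5]; decide
      · show u2 (q1 * k) = 1
        rw [f2, a1, z2]; decide
      · show u3 (q1 * k) = 1
        rw [f3, a2, z3]; decide
    · refine hY3 _ ?_ ?_ ?_ ?_
      · show c (q2 * k) = 1
        rw [f4, b3, z4]; decide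
      · show u1 (q2 * k) = 1
        rw [f1, b1, z1]; decide
      · show m (q2 * k) = 1
        rw [f5, b5, z5]; decide
      · show u3 (q2 * k) = 1
        rw [f3, b2, z3]; decide

section
variable (h : IsQuat S) (hB : Add S β) {H : Subgroup S.G} {χ : S.G → S.G → ZMod 2}
  (hχ : Sy S H χ)

include h in
lemma inv_self (a : S.G) : a⁻¹ = a := inv_eq_of_mul_eq_one_left (h.exp2 a)

include hB hχ in
lemma ge_mul {w : S.G} (hw : w ∈ H) (u v : S.G) :
    ge β χ w (u * v) = ge β χ w u + ge β χ w v := by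
  refine Prod.ext ?_ ?_
  · exact hB.mul _ _ _
  · exact hχ.2.1 w hw u v

include h hB hχ in
lemma ge_mul' {w w' : S.G} (hw : w ∈ H) (hw' : w' ∈ H) (v : S.G) :
    ge β χ (w * w') v = ge β χ w v + ge β χ w' v := by
  refine Prod.ext ?_ ?_
  · exact b_mul' h hB _ _ _
  · exact hχ.1 w hw w' hw' v

include h hB hχ in
lemma ge_zero {w v : S.G} (hw : w ∈ H) (e : S.q w v = S.zero) : ge β χ w v = 0 := by
  have e1 := (b_zero h hB w v).2 e
  refine Prod.ext e1 ?_
  exact hχ.2.2 w hw v e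

include h hB hχ in
lemma ge_one {w : S.G} (hw : w ∈ H) : ge β χ w 1 = 0 :=
  ge_zero h hB hχ hw ((b_zero h hB w 1).1 (b_one hB w))

include h hB hχ in
lemma ge_one' (v : S.G) : ge β χ 1 v = 0 := by
  refine ge_zero h hB hχ H.one_mem ?_
  rw [h.qs2]
  exact (b_zero h hB v 1).1 (b_one hB v)

include hB in
lemma g_two (p : B × ZMod 2) : p + p = 0 :=
  Prod.ext (hB.two _) (CharTwo.add_self_eq_zero _)

variable {w1 w2 w3 : S.G} (hw1 : w1 ∈ H) (hw2 : w2 ∈ H) (hw3 : w3 ∈ H)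

include h hB hχ hw1 hw2 hw3 in
lemma ge_pw (c : T3) (b : S.G) :
    ge β χ w1 (bif c.1 then b else 1) + (ge β χ w2 (bif c.2.1 then b else 1) +
      ge β χ w3 (bif c.2.2 then b else 1)) = ge β χ (pw w1 w2 w3 c) b := by
  obtain ⟨c1, c2, c3⟩ := c
  have m23 := H.mul_mem hw2 hw3
  cases c1 <;> cases c2 <;> cases c3 <;>
    simp [pw, ge_one h hB hχ hw1, ge_one h hB hχ hw2, ge_one h hB hχ hw3, ge_one' h hB hχ,
      ge_mul' h hB hχ hw1 hw2, ge_mul' h hB hχ hw1 hw3, ge_mul' h hB hχ hw2 hw3,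
      ge_mul' h hB hχ hw1 m23]

/-- the subgroup `N_l` -/
def NN (l : T3) : Subgroup S.G where
  carrier := {x | ∃ t1 t2 t3 : S.G, ge β χ w1 t1 + (ge β χ w2 t2 + ge β χ w3 t3) = 0 ∧
    pw t1 t2 t3 l = x}
  one_mem' := by
    refine ⟨1, 1, 1, ?_, ?_⟩
    · rw [ge_one h hB hχ hw1, ge_one h hB hχ hw2, ge_one h hB hχ hw3]
      simp
    · simp [pw]
  mul_mem' := by
    rintro x y ⟨t1, t2, t3, e, rfl⟩ ⟨s1, s2, s3, e', rfl⟩
    refine ⟨t1 * s1, t2 * s2, t3 * s3, ?_, pw_mul _ _ _ _ _ _ l⟩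
    rw [ge_mul hB hχ hw1, ge_mul hB hχ hw2, ge_mul hB hχ hw3, add_add_add_comm (ge β χ w2 t2),
      add_add_add_comm, e, e', add_zero]
  inv_mem' := by
    rintro x hx
    rw [inv_self h]
    exact hx

include h hB hχ hw1 hw2 hw3 in
lemma V_le {c l : T3} {b : S.G} (hb : S.q b (pw w1 w2 w3 c) = S.zero) (hl : par l c = true) :
    b ∈ NN h hB hχ hw1 hw2 hw3 l := by
  refine ⟨_, _, _, ?_, (pw_par h.exp2 b c l).trans (by rw [hl]; rfl)⟩
  rw [ge_pw h hB hχ hw1 hw2 hw3]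
  refine ge_zero h hB hχ ?_ (by rw [h.qs2]; exact hb)
  obtain ⟨c1, c2, c3⟩ := c
  refine H.mul_mem ?_ (H.mul_mem ?_ ?_)
  · cases c1
    · exact H.one_mem
    · exact hw1
  · cases c2
    · exact H.one_mem
    · exact hw2
  · cases c3
    · exact H.one_mem
    · exact hw3

include h hB hχ hw1 hw2 hw3 in
lemma not_mem {v1 v2 v3 : S.G}
    (hT : ¬ Two β χ H (ge β χ w1 v1 + (ge β χ w2 v2 + ge β χ w3 v3))) {l : T3}
    (hl : l ≠ (false, false, false)) : pw v1 v2 v3 l ∉ NN h hB hχ hw1 hw2 hw3 l := by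
  rintro ⟨t1, t2, t3, e, e'⟩
  apply hT
  set s1 := v1 * t1 with hs1
  set s2 := v2 * t2 with hs2
  set s3 := v3 * t3 with hs3
  have e1 : ge β χ w1 v1 + (ge β χ w2 v2 + ge β χ w3 v3) =
      ge β χ w1 s1 + (ge β χ w2 s2 + ge β χ w3 s3) := by
    rw [hs1, hs2, hs3, ge_mul hB hχ hw1, ge_mul hB hχ hw2, ge_mul hB hχ hw3,
      add_add_add_comm (ge β χ w2 v2), add_add_add_comm, e, add_zero]
  have e2 : pw s1 s2 s3 l = 1 := by
    rw [hs1, hs2, hs3, pw_mul, e', h.exp2]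
  rw [e1]
  have hinv : ∀ a b : S.G, a * b = 1 → a = b := fun a b hab => by
    rw [← inv_self h b]
    exact eq_inv_of_mul_eq_one_left hab
  have o1 := ge_one h hB hχ hw1
  have o2 := ge_one h hB hχ hw2
  have o3 := ge_one h hB hχ hw3
  obtain ⟨l1, l2, l3⟩ := l
  cases l1 <;> cases l2 <;> cases l3 <;> simp only [pw, cond_true, cond_false, one_mul, mul_one]
    at e2
  · exact absurd rfl hl
  · exact ⟨w1, hw1, w2, hw2, s1, s2, by rw [e2, o3, add_zero]⟩
  · exact ⟨w1, hw1, w3, hw3, s1, s3, by rw [e2, o2, zero_add]⟩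
  · refine ⟨w1, hw1, w2 * w3, H.mul_mem hw2 hw3, s1, s2, ?_⟩
    rw [ge_mul' h hB hχ hw2 hw3, ← hinv _ _ e2]
  · exact ⟨w2, hw2, w3, hw3, s2, s3, by rw [e2, o1, zero_add]⟩
  · refine ⟨w1 * w3, H.mul_mem hw1 hw3, w2, hw2, s1, s2, ?_⟩
    rw [ge_mul' h hB hχ hw1 hw3, ← hinv _ _ e2]
    abel
  · refine ⟨w1 * w2, H.mul_mem hw1 hw2, w3, hw3, s1, s3, ?_⟩
    rw [ge_mul' h hB hχ hw1 hw2, ← hinv _ _ e2]
    abel
  · refine ⟨w1 * w2, H.mul_mem hw1 hw2, w1 * w3, H.mul_mem hw1 hw3, s2, s3, ?_⟩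
    rw [ge_mul' h hB hχ hw1 hw2, ge_mul' h hB hχ hw1 hw3, hinv _ _ e2, ge_mul hB hχ hw1]
    abel

end

/-- the elements `b` with `hh(b) = 1` such that the eight products of `w1, w2, w3` lie in different
cosets of `V(b)` -/
def ZZ (S : QData) (w1 w2 w3 : S.G) (hh : S.G → ZMod 2) : Set S.G :=
  {b | hh b = 1 ∧ ∀ c : T3, c ≠ (false, false, false) → S.q b (pw w1 w2 w3 c) ≠ S.zero}

lemma par_comm : ∀ l c : T3, par l c = par c l := by decide

section
variable (h : IsQuat S) (hB : Add S β) {H : Subgroup S.G} {χ : S.G → S.G → ZMod 2}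
  (hχ : Sy S H χ) [Finite S.G] {w1 w2 w3 : S.G} (hw1 : w1 ∈ H) (hw2 : w2 ∈ H) (hw3 : w3 ∈ H)

include h hB hχ hw1 hw2 hw3

/-- the main step: a minimal sum of three points, whose second members are mapped to `1` -/
theorem step_odd {v1 v2 v3 : S.G}
    (hT : ¬ Two β χ H (ge β χ w1 v1 + (ge β χ w2 v2 + ge β χ w3 v3)))
    {hh : S.G → ZMod 2} (hhom : ∀ a b, hh (a * b) = hh a + hh b)
    (hv1 : hh v1 = 1) (hv2 : hh v2 = 1) (hv3 : hh v3 = 1) :
    Nat.card S.G ≤ 8 * (ZZ S w1 w2 w3 hh).ncard := by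
  have h01 : ∀ u : ZMod 2, u = 0 ∨ u = 1 := by decide
  -- the homomorphisms vanishing on `N_l`
  have hf : ∀ l : T3, ∃ f : S.G → ZMod 2, (∀ a b, f (a * b) = f a + f b) ∧
      (l = (false, false, false) → ∀ a, f a = 0) ∧ (l ≠ (false, false, false) →
      (∀ n ∈ NN h hB hχ hw1 hw2 hw3 l, f n = 0) ∧ f (pw v1 v2 v3 l) = 1) := by
    intro l
    by_cases hl : l = (false, false, false)
    · exact ⟨fun _ => 0, fun _ _ => (add_zero 0).symm, fun _ _ => rfl, fun hc => absurd hl hc⟩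
    · obtain ⟨f, hf1, hf2, hf3⟩ := exists_char h (not_mem h hB hχ hw1 hw2 hw3 hT hl) 1
      exact ⟨f, hf1, fun hc => absurd hc hl, fun _ => ⟨hf2, hf3⟩⟩
  choose f hf1 hf0 hf2 using hf
  have hl0 : ∀ {l c : T3}, par l c = true → l ≠ (false, false, false) := by
    rintro l c hlc rfl
    simp [par] at hlc
  have hP : ∀ P : T3, par P (true, true, true) = true → hh (pw v1 v2 v3 P) = 1 := by
    intro P hP
    rw [hom_pw hhom, hv1, hv2, hv3, par_comm]
    exact hP
  have hZ : ∀ l1 l2 l3 : T3, Sp3 l1 l2 l3 → ∀ b, hh b = 1 → f l1 b = 1 → f l2 b = 1 →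
      f l3 b = 1 → b ∈ ZZ S w1 w2 w3 hh := by
    intro l1 l2 l3 hsp b hb e1 e2 e3
    refine ⟨hb, fun c hc hq => ?_⟩
    have key : ∀ l : T3, par l c = true → f l b = 1 → False := by
      intro l hl e
      have := (hf2 l (hl0 hl)).1 _ (V_le h hB hχ hw1 hw2 hw3 hq hl)
      rw [e] at this
      exact absurd this (by decide)
    rcases hsp c hc with k | k | k
    · exact key l1 k e1
    · exact key l2 k e2
    · exact key l3 k e3
  -- two spanning points
  let Q : S.G → Prop := fun b => ∀ c : T3, c ≠ (false, false, false) →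
    ∃ l, f l b = 1 ∧ par l c = true
  have hQ : ∀ b, Q b → hh b = 1 → b ∈ ZZ S w1 w2 w3 hh := by
    intro b hb hb1
    obtain ⟨l1, l2, l3, m1, m2, m3, hall⟩ := three (fun l => f l b = 1) hb
    exact hZ l1 l2 l3 hall b hb1 m1 m2 m3
  obtain ⟨P, P', hP1, hP2, hPP, hQ1, hQ2⟩ := pick_two (fun P => Q (pw v1 v2 v3 P)) (by
    intro P1 P2 P3 hodd
    by_contra hcon
    push Not at hcon
    obtain ⟨n1, n2, n3⟩ := hcon
    have hne : ∀ P, ¬ Q (pw v1 v2 v3 P) → ∃ c : T3, c ≠ (false, false, false) ∧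
        ∀ l, par l c = true → ¬ f l (pw v1 v2 v3 P) = 1 := by
      intro P hn
      by_contra hc
      push Not at hc
      refine hn fun c hc0 => ?_
      obtain ⟨l, hl, hl'⟩ := hc c hc0
      exact ⟨l, hl', hl⟩
    obtain ⟨c1, d1, k1⟩ := hne P1 n1
    obtain ⟨c2, d2, k2⟩ := hne P2 n2
    obtain ⟨c3, d3, k3⟩ := hne P3 n3
    obtain ⟨l, hl, hF⟩ := two_pts P1 P2 P3 hodd c1 d1 c2 d2 c3 d3
    have hF' := hF (decide (f l v1 = 1), decide (f l v2 = 1), decide (f l v3 = 1))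
      ((hom_pw (hf1 l) v1 v2 v3 l).1 (hf2 l hl).2)
    rcases hF' with e | e | e
    · exact k1 l e.1 ((hom_pw (hf1 l) v1 v2 v3 P1).2 e.2)
    · exact k2 l e.1 ((hom_pw (hf1 l) v1 v2 v3 P2).2 e.2)
    · exact k3 l e.1 ((hom_pw (hf1 l) v1 v2 v3 P3).2 e.2))
  set p := pw v1 v2 v3 P with hp
  set p' := pw v1 v2 v3 P' with hp'
  have hhp : hh p = 1 := hP P hP1
  have hhp' : hh p' = 1 := hP P' hP2
  obtain ⟨l1, l2, l3, m1, m2, m3, hall⟩ := three (fun l => f l p = 1) hQ1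
  have hf4 : ∀ i x y, (![f l1, f l2, f l3, hh] : Fin 4 → S.G → ZMod 2) i (x * y) =
      (![f l1, f l2, f l3, hh] : Fin 4 → S.G → ZMod 2) i x +
      (![f l1, f l2, f l3, hh] : Fin 4 → S.G → ZMod 2) i y := by
    intro i
    fin_cases i
    · exact hf1 l1
    · exact hf1 l2
    · exact hf1 l3
    · exact hhom
  by_cases hidx : ∃ K : Subgroup S.G, K.index ≤ 8 ∧
      ∀ g ∈ K, f l1 g = 0 ∧ f l2 g = 0 ∧ f l3 g = 0 ∧ hh g = 0
  · obtain ⟨K, hK, hK0⟩ := hidx
    refine card_cosets h (r := 1) (n := 8) (K := K) hK (q := fun _ => p)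
      (fun i j _ => Subsingleton.elim _ _) fun _ k hk => ?_
    obtain ⟨z1, z2, z3, z4⟩ := hK0 k hk
    refine hZ l1 l2 l3 hall _ ?_ ?_ ?_ ?_
    · rw [hhom, hhp, z4]; decide
    · rw [hf1, m1, z1]; decide
    · rw [hf1, m2, z2]; decide
    · rw [hf1, m3, z3]; decide
  push Not at hidx
  have hidx' : ∀ K : Subgroup S.G, K.index ≤ 8 →
      ∃ g ∈ K, ¬ (f l1 g = 0 ∧ f l2 g = 0 ∧ f l3 g = 0 ∧ hh g = 0) := by
    intro K hK
    obtain ⟨g, hg, hg'⟩ := hidx K hK
    exact ⟨g, hg, fun hc => hg' hc.1 hc.2.1 hc.2.2.1 hc.2.2.2⟩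
  by_cases hv : ∀ l : T3, ∀ k, f l1 k = 0 → f l2 k = 0 → f l3 k = 0 → hh k = 0 → f l k = 0
  · obtain ⟨K, hK, hK0⟩ := ker_fin (S := S) (f := ![f l1, f l2, f l3, hh]) hf4
    have hv' : ∀ l : T3, ∀ k ∈ K, f l k = 0 := fun l k hk =>
      hv l k ((hK0 k).1 hk 0) ((hK0 k).1 hk 1) ((hK0 k).1 hk 2) ((hK0 k).1 hk 3)
    have hno : p * p' ∉ K := by
      intro hc
      have hxor : (P.1 ^^ P'.1, P.2.1 ^^ P'.2.1, P.2.2 ^^ P'.2.2) ≠
          ((false, false, false) : T3) := fun hc => hPP (xor_eq _ _ hc)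
      have e := (hf2 _ hxor).2
      rw [pw_xor h.exp2, hv' _ _ hc] at e
      exact absurd e (by decide)
    refine card_cosets h (r := 2) (n := 8) (K := K) hK (q := ![p, p']) ?_ ?_
    · intro i j hij
      fin_cases i <;> fin_cases j
      · rfl
      · exact absurd hij hno
      · exact absurd (by rw [mul_comm]; exact hij) hno
      · rfl
    · intro i k hk
      have k4 : hh k = 0 := (hK0 k).1 hk 3
      fin_cases i
      · show p * k ∈ _
        refine hQ _ (fun c hc => ?_) (by rw [hhom, hhp, k4]; decide)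
        obtain ⟨l, e1, e2⟩ := hQ1 c hc
        exact ⟨l, by rw [hf1, e1, hv' l k hk]; decide, e2⟩
      · show p' * k ∈ _
        refine hQ _ (fun c hc => ?_) (by rw [hhom, hhp', k4]; decide)
        obtain ⟨l, e1, e2⟩ := hQ2 c hc
        exact ⟨l, by rw [hf1, e1, hv' l k hk]; decide, e2⟩
  · push Not at hv
    obtain ⟨m, k0, k1, k2, k3, k4, km⟩ := hv
    have km1 : f m k0 = 1 := by
      rcases h01 (f m k0) with e | e
      · exact absurd e km
      · exact e
    have hm0 : m ≠ (false, false, false) := fun hc => km (hf0 m hc k0)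
    have hm1 : m ≠ l1 := fun hc => km (by rw [hc]; exact k1)
    have hm2 : m ≠ l2 := fun hc => km (by rw [hc]; exact k2)
    have hm3 : m ≠ l3 := fun hc => km (by rw [hc]; exact k3)
    have swap12 : ∀ {a b c : T3}, Sp3 a b c → Sp3 b a c := by
      intro a b c hs d hd
      rcases hs d hd with k | k | k
      · exact Or.inr (Or.inl k)
      · exact Or.inl k
      · exact Or.inr (Or.inr k)
    have swap23 : ∀ {a b c : T3}, Sp3 a b c → Sp3 a c b := by
      intro a b c hs d hd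
      rcases hs d hd with k | k | k
      · exact Or.inl k
      · exact Or.inr (Or.inr k)
      · exact Or.inr (Or.inl k)
    rcases exch l1 l2 l3 m hall hm0 hm1 hm2 hm3 with ⟨s1, s2⟩ | ⟨s1, s2⟩ | ⟨s1, s2⟩
    · exact count_four h (hf1 l1) (hf1 l2) (hf1 l3) hhom (hf1 m) m1 m2 m3 hhp k1 k2 k3 k4 km1
        hidx' (hZ _ _ _ hall) (hZ _ _ _ s1) (hZ _ _ _ s2)
    · refine count_four h (hf1 l1) (hf1 l3) (hf1 l2) hhom (hf1 m) m1 m3 m2 hhp k1 k3 k2 k4 km1
        (fun K hK => ?_) (hZ _ _ _ (swap23 hall)) (hZ _ _ _ (swap23 s1)) (hZ _ _ _ (swap23 s2))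
      obtain ⟨g, hg, hg'⟩ := hidx' K hK
      exact ⟨g, hg, fun hc => hg' ⟨hc.1, hc.2.2.1, hc.2.1, hc.2.2.2⟩⟩
    · refine count_four h (hf1 l2) (hf1 l3) (hf1 l1) hhom (hf1 m) m2 m3 m1 hhp k2 k3 k1 k4 km1
        (fun K hK => ?_) (hZ _ _ _ (swap23 (swap12 hall))) (hZ _ _ _ (swap23 (swap12 s1)))
        (hZ _ _ _ (swap23 (swap12 s2)))
      obtain ⟨g, hg, hg'⟩ := hidx' K hK
      exact ⟨g, hg, fun hc => hg' ⟨hc.2.2.1, hc.1, hc.2.1, hc.2.2.2⟩⟩

/-- the case `hh(v1) = 1` -/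
theorem step_one {v1 v2 v3 : S.G}
    (hT : ¬ Two β χ H (ge β χ w1 v1 + (ge β χ w2 v2 + ge β χ w3 v3)))
    {hh : S.G → ZMod 2} (hhom : ∀ a b, hh (a * b) = hh a + hh b) (hv1 : hh v1 = 1) :
    ∃ u1 ∈ H, ∃ u2 ∈ H, ∃ u3 ∈ H, Nat.card S.G ≤ 8 * (ZZ S u1 u2 u3 hh).ncard := by
  have h01 : ∀ u : ZMod 2, u = 0 ∨ u = 1 := by decide
  have h11 : (0 : ZMod 2) + 1 = 1 := by decide
  have g2 := g_two (B := B) hB
  rcases h01 (hh v2) with k2 | k2 <;> rcases h01 (hh v3) with k3 | k3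
  · refine ⟨w1 * (w2 * w3), H.mul_mem hw1 (H.mul_mem hw2 hw3), w2, hw2, w3, hw3,
      step_odd h hB hχ (H.mul_mem hw1 (H.mul_mem hw2 hw3)) hw2 hw3 (v1 := v1) (v2 := v2 * v1)
        (v3 := v3 * v1) ?_ hhom hv1 (by rw [hhom, k2, hv1, h11]) (by rw [hhom, k3, hv1, h11])⟩
    intro hc
    apply hT
    convert hc using 1
    rw [ge_mul' h hB hχ hw1 (H.mul_mem hw2 hw3), ge_mul' h hB hχ hw2 hw3, ge_mul hB hχ hw2,
      ge_mul hB hχ hw3]
    have e1 := g2 (ge β χ w2 v1)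
    have e2 := g2 (ge β χ w3 v1)
    calc ge β χ w1 v1 + (ge β χ w2 v2 + ge β χ w3 v3) = ge β χ w1 v1 + (ge β χ w2 v2 +
          ge β χ w3 v3) + (ge β χ w2 v1 + ge β χ w2 v1) + (ge β χ w3 v1 + ge β χ w3 v1) := by
          rw [e1, e2, add_zero, add_zero]
      _ = _ := by abel
  · refine ⟨w1 * w2, H.mul_mem hw1 hw2, w2, hw2, w3, hw3,
      step_odd h hB hχ (H.mul_mem hw1 hw2) hw2 hw3 (v1 := v1) (v2 := v2 * v1)
        (v3 := v3) ?_ hhom hv1 (by rw [hhom, k2, hv1, h11]) k3⟩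
    intro hc
    apply hT
    convert hc using 1
    rw [ge_mul' h hB hχ hw1 hw2, ge_mul hB hχ hw2]
    have e1 := g2 (ge β χ w2 v1)
    calc ge β χ w1 v1 + (ge β χ w2 v2 + ge β χ w3 v3) = ge β χ w1 v1 + (ge β χ w2 v2 +
          ge β χ w3 v3) + (ge β χ w2 v1 + ge β χ w2 v1) := by rw [e1, add_zero]
      _ = _ := by abel
  · refine ⟨w1 * w3, H.mul_mem hw1 hw3, w2, hw2, w3, hw3,
      step_odd h hB hχ (H.mul_mem hw1 hw3) hw2 hw3 (v1 := v1) (v2 := v2)
        (v3 := v3 * v1) ?_ hhom hv1 k2 (by rw [hhom, k3, hv1, h11])⟩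
    intro hc
    apply hT
    convert hc using 1
    rw [ge_mul' h hB hχ hw1 hw3, ge_mul hB hχ hw3]
    have e2 := g2 (ge β χ w3 v1)
    calc ge β χ w1 v1 + (ge β χ w2 v2 + ge β χ w3 v3) = ge β χ w1 v1 + (ge β χ w2 v2 +
          ge β χ w3 v3) + (ge β χ w3 v1 + ge β χ w3 v1) := by rw [e2, add_zero]
      _ = _ := by abel
  · exact ⟨w1, hw1, w2, hw2, w3, hw3, step_odd h hB hχ hw1 hw2 hw3 hT hhom hv1 k2 k3⟩

/-- the case `hh(v_i) = 1` for some `i` -/
theorem step_some {v1 v2 v3 : S.G}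
    (hT : ¬ Two β χ H (ge β χ w1 v1 + (ge β χ w2 v2 + ge β χ w3 v3)))
    {hh : S.G → ZMod 2} (hhom : ∀ a b, hh (a * b) = hh a + hh b)
    (hv : hh v1 = 1 ∨ hh v2 = 1 ∨ hh v3 = 1) :
    ∃ u1 ∈ H, ∃ u2 ∈ H, ∃ u3 ∈ H, Nat.card S.G ≤ 8 * (ZZ S u1 u2 u3 hh).ncard := by
  rcases hv with hv | hv | hv
  · exact step_one h hB hχ hw1 hw2 hw3 hT hhom hv
  · refine step_one h hB hχ hw2 hw1 hw3 (v1 := v2) (v2 := v1) (v3 := v3) (fun hc => hT ?_) hhom hv
    convert hc using 1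
    abel
  · refine step_one h hB hχ hw3 hw1 hw2 (v1 := v3) (v2 := v1) (v3 := v2) (fun hc => hT ?_) hhom hv
    convert hc using 1
    abel

/-- a minimal sum of three points and a nonzero homomorphism -/
theorem step_all {v1 v2 v3 : S.G}
    (hT : ¬ Two β χ H (ge β χ w1 v1 + (ge β χ w2 v2 + ge β χ w3 v3)))
    {hh : S.G → ZMod 2} (hhom : ∀ a b, hh (a * b) = hh a + hh b) {b0 : S.G} (hb0 : hh b0 = 1) :
    ∃ u1 ∈ H, ∃ u2 ∈ H, ∃ u3 ∈ H, Nat.card S.G ≤ 8 * (ZZ S u1 u2 u3 hh).ncard := by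
  have h01 : ∀ u : ZMod 2, u = 0 ∨ u = 1 := by decide
  by_cases hv : hh v1 = 1 ∨ hh v2 = 1 ∨ hh v3 = 1
  · exact step_some h hB hχ hw1 hw2 hw3 hT hhom hv
  have hv0 : ∀ v, ¬ hh v = 1 → hh v = 0 := fun v hv => by
    rcases h01 (hh v) with e | e
    · exact e
    · exact absurd e hv
  push Not at hv
  obtain ⟨hv1, hv2, hv3⟩ := hv
  by_cases hall : ∀ b : S.G, hh b = 1 → b ∈ ZZ S w1 w2 w3 hh
  · refine ⟨w1, hw1, w2, hw2, w3, hw3, ?_⟩
    obtain ⟨K, hK, hK0⟩ := ker_fin (S := S) (f := ![hh]) (by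
      intro i
      fin_cases i
      exact hhom)
    refine card_cosets h (r := 1) (n := 8) (K := K) (le_trans hK (by norm_num))
      (q := fun _ => b0) (fun i j _ => Subsingleton.elim _ _) fun _ k hk => hall _ ?_
    have : hh k = 0 := (hK0 k).1 hk 0
    rw [hhom, hb0, this, add_zero]
  push Not at hall
  obtain ⟨b, hb, hbO⟩ := hall
  obtain ⟨c, hc, hq⟩ : ∃ c : T3, c ≠ (false, false, false) ∧
      S.q b (pw w1 w2 w3 c) = S.zero := by
    by_contra hcon
    push Not at hcon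
    exact hbO ⟨hb, hcon⟩
  have hpH : pw w1 w2 w3 c ∈ H := by
    obtain ⟨c1, c2, c3⟩ := c
    refine H.mul_mem ?_ (H.mul_mem ?_ ?_)
    · cases c1
      · exact H.one_mem
      · exact hw1
    · cases c2
      · exact H.one_mem
      · exact hw2
    · cases c3
      · exact H.one_mem
      · exact hw3
  have hz : ge β χ (pw w1 w2 w3 c) b = 0 := ge_zero h hB hχ hpH (by rw [h.qs2]; exact hq)
  have e : ge β χ w1 (v1 * (bif c.1 then b else 1)) + (ge β χ w2 (v2 * (bif c.2.1 then b else 1)) +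
      ge β χ w3 (v3 * (bif c.2.2 then b else 1))) =
      ge β χ w1 v1 + (ge β χ w2 v2 + ge β χ w3 v3) := by
    rw [ge_mul hB hχ hw1, ge_mul hB hχ hw2, ge_mul hB hχ hw3,
      add_add_add_comm (ge β χ w2 v2), add_add_add_comm, ge_pw h hB hχ hw1 hw2 hw3, hz, add_zero]
  rw [← e] at hT
  refine step_some h hB hχ hw1 hw2 hw3 hT hhom ?_
  have k : ∀ v, ¬ hh v = 1 → hh (v * b) = 1 := fun v hv => by rw [hhom, hv0 v hv, hb, zero_add]
  obtain ⟨c1, c2, c3⟩ := c
  cases c1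
  · cases c2
    · cases c3
      · exact absurd rfl hc
      · exact Or.inr (Or.inr (k _ hv3))
    · exact Or.inr (Or.inl (k _ hv2))
  · exact Or.inl (k _ hv1)

end

/-- few elements of `E`, or few elements of `E` outside a proper subgroup -/
def Few (S : QData) (E : Set S.G) : Prop :=
  8 * E.ncard < Nat.card S.G ∨ ∃ L : Subgroup S.G, L ≠ ⊤ ∧ 16 * (E \ L).ncard < Nat.card S.G

lemma Few.mono [Finite S.G] {E E' : Set S.G} (hE : E ⊆ E') (hF : Few S E') : Few S E := by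
  rcases hF with hF | ⟨L, hL, hF⟩
  · exact Or.inl (lt_of_le_of_lt (Nat.mul_le_mul_left _
      (Set.ncard_le_ncard hE (Set.toFinite _))) hF)
  · exact Or.inr ⟨L, hL, lt_of_le_of_lt (Nat.mul_le_mul_left _
      (Set.ncard_le_ncard (Set.sdiff_subset_sdiff_left hE) (Set.toFinite _))) hF⟩

/-- at most half of the elements of a subgroup are mapped to `1` -/
lemma half_le [Finite S.G] {H : Subgroup S.G} {f : S.G → ZMod 2} (hf : ∀ a b, f (a * b) = f a + f b) :
    2 * {b | b ∈ H ∧ f b = 1}.ncard ≤ Nat.card H := by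
  rcases Set.eq_empty_or_nonempty {b | b ∈ H ∧ f b = 1} with he | ⟨x, hx, hfx⟩
  · rw [he, Set.ncard_empty]
    omega
  · have h1 : {b | b ∈ H ∧ f b = 1}.ncard ≤ {b | b ∈ H ∧ f b = 0}.ncard := by
      refine Set.ncard_le_ncard_of_injOn (fun b => x * b) ?_ ?_ (Set.toFinite _)
      · rintro b ⟨hb, hfb⟩
        refine ⟨H.mul_mem hx hb, ?_⟩
        rw [hf, hfx, hfb]
        decide
      · intro a _ b _ hab
        exact mul_left_cancel hab
    have h2 : {b | b ∈ H ∧ f b = 1} ∪ {b | b ∈ H ∧ f b = 0} ⊆ (H : Set S.G) := by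
      rintro b (hb | hb)
      · exact hb.1
      · exact hb.1
    have h3 : Disjoint {b | b ∈ H ∧ f b = 1} {b | b ∈ H ∧ f b = 0} := by
      rw [Set.disjoint_left]
      rintro b ⟨-, hb⟩ ⟨-, hb'⟩
      rw [hb] at hb'
      exact absurd hb' (by decide)
    have h4 := Set.ncard_le_ncard h2 (Set.toFinite _)
    rw [Set.ncard_union_eq h3 (Set.toFinite _) (Set.toFinite _)] at h4
    have h5 : Nat.card H = (H : Set S.G).ncard := Nat.card_coe_set_eq _
    omega

section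
variable (h : IsQuat S) (hB : Add S β) {H : Subgroup S.G} {χ : S.G → S.G → ZMod 2}
  (hχ : Sy S H χ)

lemma SN_add (m n : ℕ) {p r : B × ZMod 2} (hp : p ∈ SN β χ H m) (hr : r ∈ SN β χ H n) :
    p + r ∈ SN β χ H (m + n) := by
  induction m generalizing p with
  | zero =>
    have : p = 0 := hp
    rw [this, zero_add, zero_add]
    exact hr
  | succ m ih =>
    obtain ⟨s, hs, w, hw, v, rfl⟩ := hp
    have e : m + 1 + n = (m + n) + 1 := by omega
    rw [e]
    exact ⟨s + r, ih hs, w, hw, v, add_assoc _ _ _⟩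

include h hB hχ in
/-- no relation between the quaternions with a slot in `H` is violated by the symbol -/
theorem graph_ok [Finite S.G] (hi : 8 ≤ H.index) (hO : Few S (Out S H)) :
    ((0 : B), (1 : ZMod 2)) ∉
      AddSubgroup.closure {p : B × ZMod 2 | ∃ w ∈ H, ∃ v, p = ge β χ w v} := by
  classical
  intro hmem
  have hex : ∀ p ∈ AddSubgroup.closure {p : B × ZMod 2 | ∃ w ∈ H, ∃ v, p = ge β χ w v},
      ∃ n, p ∈ SN β χ H n := by
    intro p hp
    induction hp using AddSubgroup.closure_induction with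
    | mem p hp =>
      obtain ⟨w, hw, v, rfl⟩ := hp
      exact ⟨1, 0, rfl, w, hw, v, (add_zero _).symm⟩
    | zero => exact ⟨0, rfl⟩
    | add p r _ _ hp hr =>
      obtain ⟨m, hm⟩ := hp
      obtain ⟨n, hn⟩ := hr
      exact ⟨m + n, SN_add m n hm hn⟩
    | neg p _ hp =>
      rw [neg_eq_of_add_eq_zero_left (g_two hB p)]
      exact hp
  obtain ⟨n0, hn0⟩ := hex _ hmem
  have hex' : ∃ n, ((0 : B), (1 : ZMod 2)) ∈ SN β χ H n := ⟨n0, hn0⟩
  obtain ⟨n, hn, hmin⟩ : ∃ n, ((0 : B), (1 : ZMod 2)) ∈ SN β χ H n ∧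
      ∀ m < n, ((0 : B), (1 : ZMod 2)) ∉ SN β χ H m :=
    ⟨Nat.find hex', Nat.find_spec hex', fun m hm => Nat.find_min hex' hm⟩
  have hb2 : ∀ a b : B, 0 = a + b → a = b := fun a b hab =>
    add_right_cancel (hab.symm.trans (hB.two b).symm)
  match n, hn, hmin with
  | 0, hn, _ =>
    have e := congrArg Prod.snd (hn : ((0 : B), (1 : ZMod 2)) = 0)
    exact (by decide : ¬ (1 : ZMod 2) = 0) e
  | 1, hn, _ =>
    obtain ⟨r, hr, w, hw, v, e⟩ := hn
    have hr0 : r = 0 := hr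
    rw [hr0, add_zero] at e
    have e1 : (0 : B) = β w v := congrArg Prod.fst e
    have e2 : (1 : ZMod 2) = χ w v := congrArg Prod.snd e
    rw [sy_zero h hB hχ hw e1.symm] at e2
    exact absurd e2 (by decide)
  | 2, hn, _ =>
    obtain ⟨r, ⟨r', hr', w', hw', v', rfl⟩, w, hw, v, e⟩ := hn
    have hr0 : r' = 0 := hr'
    rw [hr0, add_zero] at e
    have e1 : (0 : B) = β w v + β w' v' := congrArg Prod.fst e
    have e2 : (1 : ZMod 2) = χ w v + χ w' v' := congrArg Prod.snd e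
    rw [sy_b h hB hχ hw hw' (hb2 _ _ e1), CharTwo.add_self_eq_zero] at e2
    exact absurd e2 (by decide)
  | m + 3, hn, hmin =>
    obtain ⟨r1, ⟨r2, ⟨r3, hr3, w3, hw3, v3, rfl⟩, w2, hw2, v2, rfl⟩, w1, hw1, v1, e⟩ := hn
    have hT : ¬ Two β χ H (ge β χ w1 v1 + (ge β χ w2 v2 + ge β χ w3 v3)) := by
      rintro ⟨u, hu, u', hu', t, t', e'⟩
      refine hmin (m + 2) (by omega) ⟨ge β χ u' t' + r3, ⟨r3, hr3, u', hu', t', rfl⟩, u, hu, t, ?_⟩
      rw [e, ← add_assoc (ge β χ u t), ← e']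
      abel
    rcases hO with hO | ⟨L, hL, hO⟩
    · obtain ⟨b0, hb0⟩ := exists_out hi
      obtain ⟨f, f1, f2, f3⟩ := exists_char h hb0 1
      obtain ⟨u1, hu1, u2, hu2, u3, hu3, hle⟩ := step_all h hB hχ hw1 hw2 hw3 hT f1 f3
      have hsub : ZZ S u1 u2 u3 f ⊆ Out S H := by
        rintro b ⟨hb, hb'⟩
        refine ⟨fun hc => ?_, u1, hu1, u2, hu2, u3, hu3, hb'⟩
        rw [f2 b hc] at hb
        exact absurd hb (by decide)
      have := Set.ncard_le_ncard hsub (Set.toFinite _)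
      omega
    · obtain ⟨b0, hb0⟩ : ∃ b0, b0 ∉ L := by
        by_contra hc
        push Not at hc
        exact hL (eq_top_iff.2 fun x _ => hc x)
      obtain ⟨f, f1, f2, f3⟩ := exists_char h hb0 1
      obtain ⟨u1, hu1, u2, hu2, u3, hu3, hle⟩ := step_all h hB hχ hw1 hw2 hw3 hT f1 f3
      have hsub : ZZ S u1 u2 u3 f ⊆ (Out S H \ L) ∪ {b | b ∈ H ∧ f b = 1} := by
        rintro b ⟨hb, hb'⟩
        by_cases hbH : b ∈ H
        · exact Or.inr ⟨hbH, hb⟩
        · refine Or.inl ⟨⟨hbH, u1, hu1, u2, hu2, u3, hu3, hb'⟩, fun hc => ?_⟩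
          rw [f2 b hc] at hb
          exact absurd hb (by decide)
      have h3 := Set.ncard_le_ncard hsub (Set.toFinite _)
      have h4 := Set.ncard_union_le (Out S H \ L) {b | b ∈ H ∧ f b = 1}
      have h5 := half_le (H := H) f1
      have h6 : Nat.card H * H.index = Nat.card S.G := Subgroup.card_mul_index H
      have h7 : Nat.card H * 8 ≤ Nat.card H * H.index := Nat.mul_le_mul_left _ hi
      omega

include h hB in
/-- symbols on `H` extend -/
theorem canExt_out [Finite S.G] (hi : 8 ≤ H.index) (hO : Few S (Out S H)) : CanExt S H := by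
  refine canExt_of_fun h hB (exists_out hi) fun χ hχ => ?_
  obtain ⟨Φ, h1, h2⟩ := exists_hom hB.two _ (graph_ok h hB hχ hi hO)
  refine ⟨Φ, h1, fun y hy g => ?_⟩
  exact (h2 _ (AddSubgroup.subset_closure ⟨y, hy, g, rfl⟩)).symm

end

section
variable (h : IsQuat S) (hB : Add S β) [Finite S.G]

include h hB in
/-- the local form -/
theorem elem_out (hO : ∀ H : Subgroup S.G, Closed S H → 8 ≤ H.index → Few S (Out S H)) :
    Elem S :=
  elem_of_closed h fun H hcl hi => canExt_out h hB hi (hO H hcl hi)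

omit [Finite S.G] in
include h in
lemma q_inj {b x y z : S.G}
    (hne : ∀ c : T3, c ≠ (false, false, false) → S.q b (pw x y z c) ≠ S.zero) (l l' : T3)
    (e : S.q b (pw x y z l) = S.q b (pw x y z l')) : l = l' := by
  by_contra hc
  have e1 := (h.qs3 _ _ _).1 e
  rw [← pw_xor h.exp2] at e1
  exact hne _ (fun hc' => hc (xor_eq l l' hc')) e1

include h in
/-- an element whose value group has index at most eight -/
lemma index_out {H : Subgroup S.G} (hcl : Closed S H) {b : S.G} (hb : b ∈ Out S H) :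
    b ∉ Core S ∧ 8 < (D h b).index := by
  obtain ⟨hbH, x, hx, y, hy, z, hz, hne⟩ := hb
  refine ⟨fun hc => hbH ((sInf_le hcl : Core S ≤ H) hc), ?_⟩
  by_contra hi
  push Not at hi
  have hmem : ∀ c : T3, pw x y z c ∈ H := by
    rintro ⟨c1, c2, c3⟩
    refine H.mul_mem ?_ (H.mul_mem ?_ ?_)
    · cases c1
      · exact H.one_mem
      · exact hx
    · cases c2
      · exact H.one_mem
      · exact hy
    · cases c3
      · exact H.one_mem
      · exact hz
  -- the eight products represent all cosets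
  let φ : T3 → S.G ⧸ D h b := fun c => QuotientGroup.mk (pw x y z c)
  have hinj : Function.Injective φ := by
    intro l l' e
    refine q_inj h hne l l' ?_
    have e1 := QuotientGroup.eq.1 e
    rw [inv_self h] at e1
    exact (h.qs3 _ _ _).2 e1
  have hcard : Nat.card (S.G ⧸ D h b) ≤ Nat.card T3 := by
    have e1 : Nat.card (S.G ⧸ D h b) = (D h b).index := rfl
    have e2 : Nat.card T3 = 8 := by simp [T3, Nat.card_eq_fintype_card]
    rw [e1, e2]
    exact hi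
  have hsurj : Function.Surjective φ := by
    have hbij : Function.Bijective φ :=
      (Nat.bijective_iff_injective_and_card φ).2 ⟨hinj, le_antisymm
        (Nat.card_le_card_of_injective φ hinj) hcard⟩
    exact hbij.2
  apply closed_sup h hcl hbH
  rw [eq_top_iff]
  intro g _
  obtain ⟨c, hc⟩ := hsurj (QuotientGroup.mk g)
  have e1 := QuotientGroup.eq.1 hc
  have e2 : g = ((pw x y z c)⁻¹ * g) * pw x y z c := by
    rw [inv_self h, mul_comm (pw x y z c) g, mul_assoc, h.exp2, mul_one]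
  rw [e2]
  exact Subgroup.mul_mem _ (Subgroup.mem_sup_left e1) (Subgroup.mem_sup_right (hmem c))

include h hB in
/-- few elements outside the core have a value group of index more than eight -/
theorem elem_idx (hO : Few S {a : S.G | a ∉ Core S ∧ 8 < (D h a).index}) : Elem S :=
  elem_out h hB fun _ hcl _ => hO.mono fun _ hb => index_out h hcl hb

end

end Pool.Agent.Zk81.Out
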