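import Pool.Agent.Zk81.Out.Gen

/-! Value groups of index at most eight, or of index at most four modulo the core. -/

set_option autoImplicit false

namespace Pool.Agent.Zk81.Out

open Pool.Agent.H315R3.ETC Pool.Agent.TH673.VG Pool.Agent.R19.QS Pool.Agent.N88.ETC

variable {S : QData} {B : Type*} [AddCommGroup B] {β : S.G → S.G → B}

/-- the elements orthogonal to the core -/
def Cperp (h : IsQuat S) : Subgroup S.G where
  carrier := {b | ∀ c ∈ Core S, b ∈ D h c}
  one_mem' := fun c _ => (D h c).one_mem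
  mul_mem' := fun ha hb c hc => (D h c).mul_mem (ha c hc) (hb c hc)
  inv_mem' := fun ha c hc => (D h c).inv_mem (ha c hc)

section
variable (h : IsQuat S) (hB : Add S β) {H : Subgroup S.G} {χ : S.G → S.G → ZMod 2}
  (hχ : Sy S H χ) (hC : Core S ≤ H) [Finite S.G]

omit [Finite S.G] in
include h in
/-- if the core is orthogonal to everything, then its graph is trivial -/
lemma graph_trivial (htop : Cperp h = ⊤) {γ : B × ZMod 2} (hγ : γ ∈ graph hB χ) : γ = 0 := by
  obtain ⟨I, hI, e1, e2⟩ := hγ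
  have hI0 : I = ∅ := by
    rw [Finset.eq_empty_iff_forall_notMem]
    intro t ht
    have hs := hI t ht
    obtain ⟨g, hg⟩ := (slot_spec hs).1
    have hmem : g ∈ Cperp h := by rw [htop]; trivial
    have h0 : S.q (slot S β t) g = S.zero := hmem _ (slot_core h hB hs)
    rw [(b_zero h hB _ _).2 h0] at hg
    exact hs.1 hg.symm
  rw [hI0, Finset.sum_empty] at e1 e2
  exact Prod.ext e1 e2

include h hB hχ hC in
/-- no relation between the quaternions with a slot in `H` is violated by the symbol -/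
theorem graph_mix (hi : 8 ≤ H.index)
    (hO : 16 * (Out S H ∩ OutC S H).ncard < Nat.card S.G) :
    ((0 : B), (1 : ZMod 2)) ∉
      AddSubgroup.closure {p : B × ZMod 2 | ∃ w ∈ H, ∃ v, p = ge β χ w v} := by
  classical
  intro hmem
  have hex : ∀ p ∈ AddSubgroup.closure {p : B × ZMod 2 | ∃ w ∈ H, ∃ v, p = ge β χ w v},
      ∃ n, p ∈ SN β χ H n := by
    intro p hp
    induction hp using AddSubgroup.closure_induction with
    | mem p hp =>
      obtain ⟨w, hw, v, rfl⟩ := hp
      exact ⟨1, 0, rfl, w, hw, v, (add_zero _).symm⟩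
    | zero => exact ⟨0, rfl⟩
    | add p r _ _ hp hr =>
      obtain ⟨m, hm⟩ := hp
      obtain ⟨n, hn⟩ := hr
      exact ⟨m + n, SN_add m n hm hn⟩
    | neg p _ hp =>
      rw [neg_eq_of_add_eq_zero_left (g_two hB p)]
      exact hp
  obtain ⟨n0, hn0⟩ := hex _ hmem
  let P : ℕ → Prop := fun n => ∃ γ ∈ graph hB χ, ∃ r ∈ SN β χ H n,
    ((0 : B), (1 : ZMod 2)) = γ + r
  have hex' : ∃ n, P n := ⟨n0, 0, (graph hB χ).zero_mem, _, hn0, (zero_add _).symm⟩
  obtain ⟨n, hn, hmin⟩ : ∃ n, P n ∧ ∀ m < n, ¬ P m :=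
    ⟨Nat.find hex', Nat.find_spec hex', fun m hm => Nat.find_min hex' hm⟩
  have hb2 : ∀ a b : B, 0 = a + b → a = b := fun a b hab =>
    add_right_cancel (hab.symm.trans (hB.two b).symm)
  match n, hn, hmin with
  | 0, hn, _ =>
    obtain ⟨γ, hγ, r, hr, e⟩ := hn
    have hr0 : r = 0 := hr
    rw [hr0, add_zero] at e
    obtain ⟨c, hc, z, e1, e2⟩ := graph_at h hB hχ hC hγ
    rw [← e] at e1 e2
    rw [sy_zero h hB hχ hc e1] at e2
    exact (by decide : ¬ (0 : ZMod 2) = 1) e2
  | 1, hn, _ =>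
    obtain ⟨γ, hγ, r, ⟨r', hr', w, hw, v, rfl⟩, e⟩ := hn
    have hr0 : r' = 0 := hr'
    rw [hr0, add_zero] at e
    obtain ⟨c, hc, z, e1, e2⟩ := graph_at h hB hχ hC hγ
    have e3 : (0 : B) = γ.1 + β w v := congrArg Prod.fst e
    have e4 : (1 : ZMod 2) = γ.2 + χ w v := congrArg Prod.snd e
    rw [← e1] at e3
    rw [← e2, sy_b h hB hχ hc hw (hb2 _ _ e3), CharTwo.add_self_eq_zero] at e4
    exact absurd e4 (by decide)
  | 2, hn, hmin =>
    obtain ⟨γ, hγ, r1, ⟨r2, ⟨r3, hr3, w2, hw2, v2, rfl⟩, w1, hw1, v1, rfl⟩, e⟩ := hn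
    have hr0 : r3 = 0 := hr3
    have hT : ¬ One hB χ H (ge β χ w1 v1 + ge β χ w2 v2) := by
      rintro ⟨γ', hγ', u, hu, t, e'⟩
      refine hmin 1 (by omega) ⟨γ + γ', (graph hB χ).add_mem hγ hγ', ge β χ u t + r3,
        ⟨r3, hr3, u, hu, t, rfl⟩, ?_⟩
      rw [e, ← add_assoc (ge β χ w1 v1), e']
      abel
    have hne : Cperp h ≠ ⊤ := by
      intro htop
      have hγ0 := graph_trivial h hB htop hγ
      rw [hγ0, hr0, zero_add, add_zero] at e
      have e1 : (0 : B) = β w1 v1 + β w2 v2 := congrArg Prod.fst e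
      have e2 : (1 : ZMod 2) = χ w1 v1 + χ w2 v2 := congrArg Prod.snd e
      rw [sy_b h hB hχ hw1 hw2 (hb2 _ _ e1), CharTwo.add_self_eq_zero] at e2
      exact absurd e2 (by decide)
    obtain ⟨b0, hb0⟩ : ∃ b0, b0 ∉ Cperp h := by
      by_contra hc
      push Not at hc
      exact hne (eq_top_iff.2 fun x _ => hc x)
    obtain ⟨f, f1, f2, f3⟩ := exists_char h hb0 1
    obtain ⟨u1, hu1, u2, hu2, hle⟩ := rel_all h hB hχ hw1 hw2 hT f1 f3
    have hsub : ZC hB χ u1 u2 f ⊆ (Out S H ∩ OutC S H) ∪ {b | b ∈ H ∧ f b = 1} := by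
      intro b hb
      by_cases hbH : b ∈ H
      · exact Or.inr ⟨hbH, hb.1⟩
      refine Or.inl ⟨?_, zc_sub h hB hχ hC hu1 hu2 hbH hb⟩
      have hbp : b ∉ Cperp h := by
        intro hc
        have hb1 := hb.1
        rw [f2 b hc] at hb1
        exact absurd hb1 (by decide)
      obtain ⟨c, hc, hcb⟩ : ∃ c ∈ Core S, b ∉ D h c := by
        by_contra hcon
        push Not at hcon
        exact hbp fun c hc => hcon c hc
      have hcb' : S.q b c ≠ S.zero := fun e => hcb (by
        show S.q c b = S.zero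
        rw [h.qs2]; exact e)
      obtain ⟨-, g1, g2, g3⟩ := hb
      -- the products with the core
      have key : ∀ w ∈ H, ge β χ w b ∉ graph hB χ → ∀ c' ∈ Core S, S.q b (w * c') ≠ S.zero := by
        intro w hwH hg c' hc' hq
        apply hg
        have hcH := hC hc'
        have e : ge β χ (w * c') b = 0 :=
          ge_zero h hB hχ (H.mul_mem hwH hcH) (by rw [h.qs2]; exact hq)
        rw [ge_mul' h hB hχ hwH hcH] at e
        have e3 := g_two (B := B) hB (ge β χ c' b)
        rw [add_right_cancel (e.trans e3.symm)]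
        exact core_graph h hB hχ hC c' hc' b
      have g3' : ge β χ (u1 * u2) b ∉ graph hB χ := by
        rw [ge_mul' h hB hχ hu1 hu2]
        exact g3
      refine ⟨hbH, u1, hu1, u2, hu2, c, hC hc, ?_⟩
      rintro ⟨l1, l2, l3⟩ hl
      cases l1 <;> cases l2 <;> cases l3
      · exact absurd rfl hl
      · show S.q b (1 * (1 * c)) ≠ S.zero
        rw [one_mul, one_mul]
        exact hcb'
      · show S.q b (1 * (u2 * 1)) ≠ S.zero
        rw [one_mul]
        exact key u2 hu2 g2 1 (Core S).one_mem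
      · show S.q b (1 * (u2 * c)) ≠ S.zero
        rw [one_mul]
        exact key u2 hu2 g2 c hc
      · show S.q b (u1 * (1 * 1)) ≠ S.zero
        rw [one_mul]
        exact key u1 hu1 g1 1 (Core S).one_mem
      · show S.q b (u1 * (1 * c)) ≠ S.zero
        rw [one_mul]
        exact key u1 hu1 g1 c hc
      · show S.q b (u1 * (u2 * 1)) ≠ S.zero
        rw [← mul_assoc]
        exact key (u1 * u2) (H.mul_mem hu1 hu2) g3' 1 (Core S).one_mem
      · show S.q b (u1 * (u2 * c)) ≠ S.zero
        rw [← mul_assoc]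
        exact key (u1 * u2) (H.mul_mem hu1 hu2) g3' c hc
    have h3 := Set.ncard_le_ncard hsub (Set.toFinite _)
    have h4 := Set.ncard_union_le (Out S H ∩ OutC S H) {b | b ∈ H ∧ f b = 1}
    have h5 := half_le (H := H) f1
    have h6 : Nat.card H * H.index = Nat.card S.G := Subgroup.card_mul_index H
    have h7 : Nat.card H * 8 ≤ Nat.card H * H.index := Nat.mul_le_mul_left _ hi
    omega
  | m + 3, hn, hmin =>
    obtain ⟨γ, hγ, r1, ⟨r2, ⟨r3, ⟨r4, hr4, w3, hw3, v3, rfl⟩, w2, hw2, v2, rfl⟩, w1, hw1, v1,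
      rfl⟩, e⟩ := hn
    have hT : ¬ TwoG (graph hB χ) β χ H (ge β χ w1 v1 + (ge β χ w2 v2 + ge β χ w3 v3)) := by
      rintro ⟨γ', hγ', u, hu, u', hu', t, t', e'⟩
      refine hmin (m + 2) (by omega) ⟨γ + γ', (graph hB χ).add_mem hγ hγ',
        ge β χ u t + (ge β χ u' t' + r4),
        ⟨ge β χ u' t' + r4, ⟨r4, hr4, u', hu', t', rfl⟩, u, hu, t, rfl⟩, ?_⟩
      have e5 : ge β χ w1 v1 + (ge β χ w2 v2 + (ge β χ w3 v3 + r4)) =
          ge β χ w1 v1 + (ge β χ w2 v2 + ge β χ w3 v3) + r4 := by abel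
      rw [e, e5, e']
      abel
    obtain ⟨b0, hb0⟩ := exists_out hi
    obtain ⟨f, f1, f2, f3⟩ := exists_char h hb0 1
    obtain ⟨u1, hu1, u2, hu2, u3, hu3, hle⟩ :=
      stepg_all h hB hχ hw1 hw2 hw3 (graph hB χ) hT f1 f3
    have hsub : ZG (graph hB χ) β χ u1 u2 u3 f ⊆ Out S H ∩ OutC S H := by
      rintro b ⟨hb, hb'⟩
      have hbH : b ∉ H := by
        intro hc
        rw [f2 b hc] at hb
        exact absurd hb (by decide)
      have hmem : ∀ c : T3, pw u1 u2 u3 c ∈ H := by
        rintro ⟨c1, c2, c3⟩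
        refine H.mul_mem ?_ (H.mul_mem ?_ ?_)
        · cases c1
          · exact H.one_mem
          · exact hu1
        · cases c2
          · exact H.one_mem
          · exact hu2
        · cases c3
          · exact H.one_mem
          · exact hu3
      refine ⟨⟨hbH, u1, hu1, u2, hu2, u3, hu3, fun c hc hq => hb' c hc ?_⟩,
        zc_sub h hB hχ hC hu1 hu2 (hh := f) hbH ⟨hb, ?_, ?_, ?_⟩⟩
      · rw [ge_zero h hB hχ (hmem c) (by rw [h.qs2]; exact hq)]
        exact (graph hB χ).zero_mem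
      · have := hb' (true, false, false) (by decide)
        simpa [pw] using this
      · have := hb' (false, true, false) (by decide)
        simpa [pw] using this
      · have := hb' (true, true, false) (by decide)
        rw [← ge_mul' h hB hχ hu1 hu2]
        simpa [pw] using this
    have := Set.ncard_le_ncard hsub (Set.toFinite _)
    omega

end

section
variable (h : IsQuat S) (hB : Add S β) [Finite S.G]

include h hB in
/-- the local form -/
theorem elem_outM (hO : ∀ H : Subgroup S.G, Closed S H → 8 ≤ H.index →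
    16 * (Out S H ∩ OutC S H).ncard < Nat.card S.G) : Elem S := by
  refine elem_of_closed h fun H hcl hi => ?_
  have hC : Core S ≤ H := sInf_le hcl
  refine canExt_of_fun h hB (exists_out hi) fun χ hχ => ?_
  obtain ⟨Φ, h1, h2⟩ := exists_hom hB.two _ (graph_mix h hB hχ hC hi (hO H hcl hi))
  refine ⟨Φ, h1, fun y hy g => ?_⟩
  exact (h2 _ (AddSubgroup.subset_closure ⟨y, hy, g, rfl⟩)).symm

/-- the relative index of the value group of an element of `Out` -/
lemma relIndex_out {H : Subgroup S.G} {b : S.G} (hb : b ∈ Out S H) :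
    8 ≤ (D h b).relIndex H := by
  obtain ⟨hbH, x, hx, y, hy, z, hz, hne⟩ := hb
  have hmem : ∀ c : T3, pw x y z c ∈ H := by
    rintro ⟨c1, c2, c3⟩
    refine H.mul_mem ?_ (H.mul_mem ?_ ?_)
    · cases c1
      · exact H.one_mem
      · exact hx
    · cases c2
      · exact H.one_mem
      · exact hy
    · cases c3
      · exact H.one_mem
      · exact hz
  let φ : T3 → H ⧸ (D h b).subgroupOf H := fun c => QuotientGroup.mk ⟨pw x y z c, hmem c⟩
  have hinj : Function.Injective φ := by
    intro l l' e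
    refine q_inj h hne l l' ?_
    have e1 := QuotientGroup.eq.1 e
    rw [Subgroup.mem_subgroupOf] at e1
    have e2 : (pw x y z l)⁻¹ * pw x y z l' ∈ D h b := e1
    rw [inv_self h] at e2
    exact (h.qs3 _ _ _).2 e2
  have := Nat.card_le_card_of_injective φ hinj
  have e2 : Nat.card T3 = 8 := by simp [T3, Nat.card_eq_fintype_card]
  rw [e2] at this
  exact this

include h hB in
/-- the global form -/
theorem elem_mix (hO : 16 * {a : S.G | a ∉ Core S ∧ 8 < (D h a).index ∧
    4 < (D h a ⊔ Core S).index}.ncard < Nat.card S.G) : Elem S := by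
  refine elem_outM h hB fun H hcl hi => lt_of_le_of_lt (Nat.mul_le_mul_left _ ?_) hO
  refine Set.ncard_le_ncard (fun b hb => ?_) (Set.toFinite _)
  exact ⟨(index_out h hcl hb.1).1, (index_out h hcl hb.1).2, (index_outC h hcl hb.2).2⟩

include h hB in
/-- the local form with indices -/
theorem elem_mix_local (hO : ∀ H : Subgroup S.G, Closed S H → 8 ≤ H.index →
    16 * {a : S.G | a ∉ H ∧ 8 ≤ (D h a).relIndex H ∧
      4 ≤ (D h a ⊔ Core S).relIndex H}.ncard < Nat.card S.G) : Elem S := by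
  refine elem_outM h hB fun H hcl hi => lt_of_le_of_lt (Nat.mul_le_mul_left _ ?_) (hO H hcl hi)
  refine Set.ncard_le_ncard (fun b hb => ?_) (Set.toFinite _)
  exact ⟨hb.1.1, relIndex_out h hb.1, relIndex_outC h hb.2⟩

end

end Pool.Agent.Zk81.Out
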