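import Pool.Agent.Zk81.Out.Main

/-! Symbols on a closed subgroup `H` are functions of the quaternions if few elements `b` outside
`H` have the property that `C (H ∩ V(b))` has index at least four in `H`, where `C` is the core. -/

set_option autoImplicit false

namespace Pool.Agent.Zk81.Out

open Pool.Agent.H315R3.ETC Pool.Agent.TH673.VG Pool.Agent.R19.QS Pool.Agent.N88.ETC

variable {S : QData} {B : Type*} [AddCommGroup B] {β : S.G → S.G → B}

/-- the elements `b` outside `H` such that for some `x, y` in `H` the elements `1, x, y, xy` lie in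
different cosets of `C V(b)` -/
def OutC (S : QData) (H : Subgroup S.G) : Set S.G :=
  {b | b ∉ H ∧ ∃ x ∈ H, ∃ y ∈ H, ∀ w : S.G, w = x ∨ w = y ∨ w = x * y → ∀ c ∈ Core S,
    S.q b (w * c) ≠ S.zero}

section
variable (h : IsQuat S) (hB : Add S β) {H : Subgroup S.G} {χ : S.G → S.G → ZMod 2}
  (hχ : Sy S H χ) (hC : Core S ≤ H)

/-- sums of a member of the graph of the core and one point -/
def One (hB : Add S β) (χ : S.G → S.G → ZMod 2) (H : Subgroup S.G) (T : B × ZMod 2) : Prop :=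
  ∃ γ ∈ graph hB χ, ∃ u ∈ H, ∃ t : S.G, T = γ + ge β χ u t

/-- the elements `b` with `hh(b) = 1` such that no nontrivial member of `⟨w1,w2⟩` is, at `b`, in the
graph of the core -/
def ZC (hB : Add S β) (χ : S.G → S.G → ZMod 2) (w1 w2 : S.G) (hh : S.G → ZMod 2) : Set S.G :=
  {b | hh b = 1 ∧ ge β χ w1 b ∉ graph hB χ ∧ ge β χ w2 b ∉ graph hB χ ∧
    ge β χ w1 b + ge β χ w2 b ∉ graph hB χ}

variable {w1 w2 : S.G} (hw1 : w1 ∈ H) (hw2 : w2 ∈ H)

/-- the subgroup for the first coordinate -/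
def M1 : Subgroup S.G where
  carrier := {t | ∃ t' : S.G, ge β χ w1 t + ge β χ w2 t' ∈ graph hB χ}
  one_mem' := ⟨1, by
    rw [ge_one h hB hχ hw1, ge_one h hB hχ hw2, add_zero]
    exact (graph hB χ).zero_mem⟩
  mul_mem' := by
    rintro a b ⟨a', ha⟩ ⟨b', hb⟩
    refine ⟨a' * b', ?_⟩
    rw [ge_mul hB hχ hw1, ge_mul hB hχ hw2, add_add_add_comm]
    exact (graph hB χ).add_mem ha hb
  inv_mem' := by
    rintro a ha
    rw [inv_self h]
    exact ha

/-- the subgroup for the sum of the coordinates -/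
def M12 : Subgroup S.G where
  carrier := {x | ∃ t t' : S.G, ge β χ w1 t + ge β χ w2 t' ∈ graph hB χ ∧ t * t' = x}
  one_mem' := ⟨1, 1, by
    rw [ge_one h hB hχ hw1, ge_one h hB hχ hw2, add_zero]
    exact (graph hB χ).zero_mem, mul_one 1⟩
  mul_mem' := by
    rintro _ _ ⟨a, a', ha, rfl⟩ ⟨b, b', hb, rfl⟩
    refine ⟨a * b, a' * b', ?_, mul_mul_mul_comm _ _ _ _⟩
    rw [ge_mul hB hχ hw1, ge_mul hB hχ hw2, add_add_add_comm]
    exact (graph hB χ).add_mem ha hb
  inv_mem' := by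
    rintro a ha
    rw [inv_self h]
    exact ha

include h hB hχ hw1 hw2 in
lemma m1_out {v1 v2 : S.G} (hT : ¬ One hB χ H (ge β χ w1 v1 + ge β χ w2 v2)) :
    v1 ∉ M1 h hB hχ hw1 hw2 := by
  rintro ⟨t', ht⟩
  refine hT ⟨_, ht, w2, hw2, v2 * t', ?_⟩
  rw [ge_mul hB hχ hw2]
  have e := g_two (B := B) hB (ge β χ w2 t')
  calc ge β χ w1 v1 + ge β χ w2 v2 = ge β χ w1 v1 + ge β χ w2 v2 +
        (ge β χ w2 t' + ge β χ w2 t') := by rw [e, add_zero]
    _ = _ := by abel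

include h hB hχ hw1 hw2 in
lemma m12_out {v1 v2 : S.G} (hT : ¬ One hB χ H (ge β χ w1 v1 + ge β χ w2 v2)) :
    v1 * v2 ∉ M12 h hB hχ hw1 hw2 := by
  rintro ⟨t, t', ht, e⟩
  have e1 : v1 * t = v2 * t' := by
    have e2 : (v1 * t) * (v2 * t') = 1 := by
      rw [mul_mul_mul_comm, e, h.exp2]
    rw [← inv_self h (v2 * t')]
    exact eq_inv_of_mul_eq_one_left e2
  refine hT ⟨_, ht, w1 * w2, H.mul_mem hw1 hw2, v1 * t, ?_⟩
  rw [ge_mul' h hB hχ hw1 hw2, ge_mul hB hχ hw1, e1, ge_mul hB hχ hw2]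
  have e3 := g_two (B := B) hB (ge β χ w1 t)
  have e4 := g_two (B := B) hB (ge β χ w2 t')
  calc ge β χ w1 v1 + ge β χ w2 v2 = ge β χ w1 v1 + ge β χ w2 v2 +
        (ge β χ w1 t + ge β χ w1 t) + (ge β χ w2 t' + ge β χ w2 t') := by
          rw [e3, e4, add_zero, add_zero]
    _ = _ := by abel

variable [Finite S.G]

include h hB hχ hw1 hw2

/-- both second members are mapped to `1` -/
theorem rel_odd {v1 v2 : S.G} (hT : ¬ One hB χ H (ge β χ w1 v1 + ge β χ w2 v2))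
    {hh : S.G → ZMod 2} (hhom : ∀ a b, hh (a * b) = hh a + hh b)
    (hv1 : hh v1 = 1) (hv2 : hh v2 = 1) :
    Nat.card S.G ≤ 8 * (ZC hB χ w1 w2 hh).ncard := by
  have h01 : ∀ u : ZMod 2, u = 0 ∨ u = 1 := by decide
  have h1 := m1_out h hB hχ hw1 hw2 hT
  have h12 := m12_out h hB hχ hw1 hw2 hT
  have hT' : ¬ One hB χ H (ge β χ w2 v2 + ge β χ w1 v1) := by rwa [add_comm]
  have h2 := m1_out h hB hχ hw2 hw1 hT'
  obtain ⟨f1, a1, a2, a3⟩ := exists_char h h1 1
  obtain ⟨f2, b1, b2, b3⟩ := exists_char h h2 1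
  obtain ⟨f3, c1, c2, c3⟩ := exists_char h h12 1
  have z0 := (graph hB χ).zero_mem
  -- the subgroups contain the elements to be avoided
  have k1 : ∀ b, ge β χ w1 b ∈ graph hB χ → f1 b = 0 ∧ f3 b = 0 := fun b hb =>
    ⟨a2 b ⟨1, by rw [ge_one h hB hχ hw2, add_zero]; exact hb⟩,
      c2 b ⟨b, 1, by rw [ge_one h hB hχ hw2, add_zero]; exact hb, mul_one b⟩⟩
  have k2 : ∀ b, ge β χ w2 b ∈ graph hB χ → f2 b = 0 ∧ f3 b = 0 := fun b hb =>
    ⟨b2 b ⟨1, by rw [ge_one h hB hχ hw1, add_zero]; exact hb⟩,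
      c2 b ⟨1, b, by rw [ge_one h hB hχ hw1, zero_add]; exact hb, one_mul b⟩⟩
  have k3 : ∀ b, ge β χ w1 b + ge β χ w2 b ∈ graph hB χ → f1 b = 0 ∧ f2 b = 0 := fun b hb =>
    ⟨a2 b ⟨b, hb⟩, b2 b ⟨b, by rw [add_comm]; exact hb⟩⟩
  rw [c1] at c3
  have h10 : (1 : ZMod 2) ≠ 0 := by decide
  rcases h01 (f3 v1) with k | k
  · have k' : f3 v2 = 1 := by rw [k, zero_add] at c3; exact c3
    obtain ⟨K, hK, hK0⟩ := ker_fin (S := S) (f := ![f2, f3, hh]) (by
      intro i
      fin_cases i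
      · exact b1
      · exact c1
      · exact hhom)
    refine card_cosets h (r := 1) (n := 8) (K := K) hK (q := fun _ => v2)
      (fun i j _ => Subsingleton.elim _ _) fun _ g hg => ?_
    have z1 : f2 g = 0 := (hK0 g).1 hg 0
    have z2 : f3 g = 0 := (hK0 g).1 hg 1
    have z3 : hh g = 0 := (hK0 g).1 hg 2
    have e1 : f2 (v2 * g) = 1 := by rw [b1, b3, z1, add_zero]
    have e2 : f3 (v2 * g) = 1 := by rw [c1, k', z2, add_zero]
    refine ⟨by rw [hhom, hv2, z3, add_zero], fun hc => ?_, fun hc => ?_, fun hc => ?_⟩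
    · exact h10 (e2.symm.trans (k1 _ hc).2)
    · exact h10 (e1.symm.trans (k2 _ hc).1)
    · exact h10 (e1.symm.trans (k3 _ hc).2)
  · obtain ⟨K, hK, hK0⟩ := ker_fin (S := S) (f := ![f1, f3, hh]) (by
      intro i
      fin_cases i
      · exact a1
      · exact c1
      · exact hhom)
    refine card_cosets h (r := 1) (n := 8) (K := K) hK (q := fun _ => v1)
      (fun i j _ => Subsingleton.elim _ _) fun _ g hg => ?_
    have z1 : f1 g = 0 := (hK0 g).1 hg 0
    have z2 : f3 g = 0 := (hK0 g).1 hg 1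
    have z3 : hh g = 0 := (hK0 g).1 hg 2
    have e1 : f1 (v1 * g) = 1 := by rw [a1, a3, z1, add_zero]
    have e2 : f3 (v1 * g) = 1 := by rw [c1, k, z2, add_zero]
    refine ⟨by rw [hhom, hv1, z3, add_zero], fun hc => ?_, fun hc => ?_, fun hc => ?_⟩
    · exact h10 (e2.symm.trans (k1 _ hc).2)
    · exact h10 (e2.symm.trans (k2 _ hc).2)
    · exact h10 (e1.symm.trans (k3 _ hc).1)

/-- some second member is mapped to `1` -/
theorem rel_one {v1 v2 : S.G} (hT : ¬ One hB χ H (ge β χ w1 v1 + ge β χ w2 v2))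
    {hh : S.G → ZMod 2} (hhom : ∀ a b, hh (a * b) = hh a + hh b) (hv1 : hh v1 = 1) :
    ∃ u1 ∈ H, ∃ u2 ∈ H, Nat.card S.G ≤ 8 * (ZC hB χ u1 u2 hh).ncard := by
  have h01 : ∀ u : ZMod 2, u = 0 ∨ u = 1 := by decide
  rcases h01 (hh v2) with k2 | k2
  · refine ⟨w1 * w2, H.mul_mem hw1 hw2, w2, hw2, rel_odd h hB hχ (H.mul_mem hw1 hw2) hw2
      (v1 := v1) (v2 := v2 * v1) (fun hc => hT ?_) hhom hv1 (by rw [hhom, k2, hv1, zero_add])⟩
    convert hc using 1
    rw [ge_mul' h hB hχ hw1 hw2, ge_mul hB hχ hw2]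
    have e1 := g_two (B := B) hB (ge β χ w2 v1)
    calc ge β χ w1 v1 + ge β χ w2 v2 = ge β χ w1 v1 + ge β χ w2 v2 +
          (ge β χ w2 v1 + ge β χ w2 v1) := by rw [e1, add_zero]
      _ = _ := by abel
  · exact ⟨w1, hw1, w2, hw2, rel_odd h hB hχ hw1 hw2 hT hhom hv1 k2⟩

/-- a minimal sum of two points modulo the core, and a nonzero homomorphism -/
theorem rel_all {v1 v2 : S.G} (hT : ¬ One hB χ H (ge β χ w1 v1 + ge β χ w2 v2))
    {hh : S.G → ZMod 2} (hhom : ∀ a b, hh (a * b) = hh a + hh b) {b0 : S.G} (hb0 : hh b0 = 1) :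
    ∃ u1 ∈ H, ∃ u2 ∈ H, Nat.card S.G ≤ 8 * (ZC hB χ u1 u2 hh).ncard := by
  have h01 : ∀ u : ZMod 2, u = 0 ∨ u = 1 := by decide
  have some : ∀ v1 v2 : S.G, ¬ One hB χ H (ge β χ w1 v1 + ge β χ w2 v2) →
      (hh v1 = 1 ∨ hh v2 = 1) →
      ∃ u1 ∈ H, ∃ u2 ∈ H, Nat.card S.G ≤ 8 * (ZC hB χ u1 u2 hh).ncard := by
    intro v1 v2 hT hv
    rcases hv with hv | hv
    · exact rel_one h hB hχ hw1 hw2 hT hhom hv
    · exact rel_one h hB hχ hw2 hw1 (by rwa [add_comm]) hhom hv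
  by_cases hv : hh v1 = 1 ∨ hh v2 = 1
  · exact some v1 v2 hT hv
  have hv0 : ∀ v, ¬ hh v = 1 → hh v = 0 := fun v hv => by
    rcases h01 (hh v) with e | e
    · exact e
    · exact absurd e hv
  push Not at hv
  obtain ⟨hv1, hv2⟩ := hv
  have k : ∀ v b, ¬ hh v = 1 → hh b = 1 → hh (v * b) = 1 := fun v b hv hb => by
    rw [hhom, hv0 v hv, hb, zero_add]
  by_cases hall : ∀ b : S.G, hh b = 1 → b ∈ ZC hB χ w1 w2 hh
  · refine ⟨w1, hw1, w2, hw2, ?_⟩
    obtain ⟨K, hK, hK0⟩ := ker_fin (S := S) (f := ![hh]) (by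
      intro i
      fin_cases i
      exact hhom)
    refine card_cosets h (r := 1) (n := 8) (K := K) (le_trans hK (by norm_num))
      (q := fun _ => b0) (fun i j _ => Subsingleton.elim _ _) fun _ k hk => hall _ ?_
    have : hh k = 0 := (hK0 k).1 hk 0
    rw [hhom, hb0, this, add_zero]
  push Not at hall
  obtain ⟨b, hb, hbO⟩ := hall
  have hbO' : ge β χ w1 b ∈ graph hB χ ∨ ge β χ w2 b ∈ graph hB χ ∨
      ge β χ w1 b + ge β χ w2 b ∈ graph hB χ := by
    by_contra hc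
    push Not at hc
    exact hbO ⟨hb, hc.1, hc.2.1, hc.2.2⟩
  have tr : ∀ γ ∈ graph hB χ, ∀ T T' : B × ZMod 2, T' = T + γ → ¬ One hB χ H T →
      ¬ One hB χ H T' := by
    rintro γ hγ T T' e hT ⟨γ', hγ', u, hu, t, e'⟩
    refine hT ⟨γ' + γ, (graph hB χ).add_mem hγ' hγ, u, hu, t, ?_⟩
    have e2 := g_two (B := B) hB γ
    have e3 : T = T' + γ := by rw [e, add_assoc, e2, add_zero]
    rw [e3, e']
    abel
  rcases hbO' with hb' | hb' | hb'
  · refine some (v1 * b) v2 (tr _ hb' _ _ ?_ hT) (Or.inl (k v1 b hv1 hb))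
    rw [ge_mul hB hχ hw1]
    abel
  · refine some v1 (v2 * b) (tr _ hb' _ _ ?_ hT) (Or.inr (k v2 b hv2 hb))
    rw [ge_mul hB hχ hw2]
    abel
  · refine some (v1 * b) (v2 * b) (tr _ hb' _ _ ?_ hT) (Or.inl (k v1 b hv1 hb))
    rw [ge_mul hB hχ hw1, ge_mul hB hχ hw2]
    abel

end

section
variable (h : IsQuat S) (hB : Add S β) {H : Subgroup S.G} {χ : S.G → S.G → ZMod 2}
  (hχ : Sy S H χ) (hC : Core S ≤ H) [Finite S.G]

omit [Finite S.G] in
include h hB hχ hC in
lemma zc_sub {w1 w2 : S.G} (hw1 : w1 ∈ H) (hw2 : w2 ∈ H) {hh : S.G → ZMod 2} {b : S.G}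
    (hbH : b ∉ H) (hb : b ∈ ZC hB χ w1 w2 hh) : b ∈ OutC S H := by
  obtain ⟨-, h1, h2, h3⟩ := hb
  refine ⟨hbH, w1, hw1, w2, hw2, fun w hw c hc hq => ?_⟩
  have hwH : w ∈ H := by
    rcases hw with rfl | rfl | rfl
    · exact hw1
    · exact hw2
    · exact H.mul_mem hw1 hw2
  have hcH := hC hc
  have e : ge β χ (w * c) b = 0 :=
    ge_zero h hB hχ (H.mul_mem hwH hcH) (by rw [h.qs2]; exact hq)
  rw [ge_mul' h hB hχ hwH hcH] at e
  have e2 : ge β χ w b = ge β χ c b := by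
    have e3 := g_two (B := B) hB (ge β χ c b)
    exact add_right_cancel (e.trans e3.symm)
  have hg : ge β χ w b ∈ graph hB χ := by
    rw [e2]
    exact core_graph h hB hχ hC c hc b
  rcases hw with rfl | rfl | rfl
  · exact h1 hg
  · exact h2 hg
  · rw [ge_mul' h hB hχ hw1 hw2] at hg
    exact h3 hg

include h hB hχ hC in
/-- no relation between the quaternions with a slot in `H` is violated by the symbol -/
theorem graph_rel (hi : 8 ≤ H.index) (hO : Few S (OutC S H)) :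
    ((0 : B), (1 : ZMod 2)) ∉
      AddSubgroup.closure {p : B × ZMod 2 | ∃ w ∈ H, ∃ v, p = ge β χ w v} := by
  classical
  intro hmem
  have hex : ∀ p ∈ AddSubgroup.closure {p : B × ZMod 2 | ∃ w ∈ H, ∃ v, p = ge β χ w v},
      ∃ n, p ∈ SN β χ H n := by
    intro p hp
    induction hp using AddSubgroup.closure_induction with
    | mem p hp =>
      obtain ⟨w, hw, v, rfl⟩ := hp
      exact ⟨1, 0, rfl, w, hw, v, (add_zero _).symm⟩
    | zero => exact ⟨0, rfl⟩
    | add p r _ _ hp hr =>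
      obtain ⟨m, hm⟩ := hp
      obtain ⟨n, hn⟩ := hr
      exact ⟨m + n, SN_add m n hm hn⟩
    | neg p _ hp =>
      rw [neg_eq_of_add_eq_zero_left (g_two hB p)]
      exact hp
  obtain ⟨n0, hn0⟩ := hex _ hmem
  let P : ℕ → Prop := fun n => ∃ γ ∈ graph hB χ, ∃ r ∈ SN β χ H n,
    ((0 : B), (1 : ZMod 2)) = γ + r
  have hex' : ∃ n, P n := ⟨n0, 0, (graph hB χ).zero_mem, _, hn0, (zero_add _).symm⟩
  obtain ⟨n, hn, hmin⟩ : ∃ n, P n ∧ ∀ m < n, ¬ P m :=
    ⟨Nat.find hex', Nat.find_spec hex', fun m hm => Nat.find_min hex' hm⟩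
  have hb2 : ∀ a b : B, 0 = a + b → a = b := fun a b hab =>
    add_right_cancel (hab.symm.trans (hB.two b).symm)
  match n, hn, hmin with
  | 0, hn, _ =>
    obtain ⟨γ, hγ, r, hr, e⟩ := hn
    have hr0 : r = 0 := hr
    rw [hr0, add_zero] at e
    obtain ⟨c, hc, z, e1, e2⟩ := graph_at h hB hχ hC hγ
    rw [← e] at e1 e2
    rw [sy_zero h hB hχ hc e1] at e2
    exact (by decide : ¬ (0 : ZMod 2) = 1) e2
  | 1, hn, _ =>
    obtain ⟨γ, hγ, r, ⟨r', hr', w, hw, v, rfl⟩, e⟩ := hn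
    have hr0 : r' = 0 := hr'
    rw [hr0, add_zero] at e
    obtain ⟨c, hc, z, e1, e2⟩ := graph_at h hB hχ hC hγ
    have e3 : (0 : B) = γ.1 + β w v := congrArg Prod.fst e
    have e4 : (1 : ZMod 2) = γ.2 + χ w v := congrArg Prod.snd e
    rw [← e1] at e3
    rw [← e2, sy_b h hB hχ hc hw (hb2 _ _ e3), CharTwo.add_self_eq_zero] at e4
    exact absurd e4 (by decide)
  | m + 2, hn, hmin =>
    obtain ⟨γ, hγ, r1, ⟨r2, ⟨r3, hr3, w2, hw2, v2, rfl⟩, w1, hw1, v1, rfl⟩, e⟩ := hn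
    have hT : ¬ One hB χ H (ge β χ w1 v1 + ge β χ w2 v2) := by
      rintro ⟨γ', hγ', u, hu, t, e'⟩
      refine hmin (m + 1) (by omega) ⟨γ + γ', (graph hB χ).add_mem hγ hγ', ge β χ u t + r3,
        ⟨r3, hr3, u, hu, t, rfl⟩, ?_⟩
      rw [e, ← add_assoc (ge β χ w1 v1), e']
      abel
    rcases hO with hO | ⟨L, hL, hO⟩
    · obtain ⟨b0, hb0⟩ := exists_out hi
      obtain ⟨f, f1, f2, f3⟩ := exists_char h hb0 1
      obtain ⟨u1, hu1, u2, hu2, hle⟩ := rel_all h hB hχ hw1 hw2 hT f1 f3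
      have hsub : ZC hB χ u1 u2 f ⊆ OutC S H := by
        intro b hb
        refine zc_sub h hB hχ hC hu1 hu2 (fun hc => ?_) hb
        have hb1 := hb.1
        rw [f2 b hc] at hb1
        exact absurd hb1 (by decide)
      have := Set.ncard_le_ncard hsub (Set.toFinite _)
      omega
    · obtain ⟨b0, hb0⟩ : ∃ b0, b0 ∉ L := by
        by_contra hc
        push Not at hc
        exact hL (eq_top_iff.2 fun x _ => hc x)
      obtain ⟨f, f1, f2, f3⟩ := exists_char h hb0 1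
      obtain ⟨u1, hu1, u2, hu2, hle⟩ := rel_all h hB hχ hw1 hw2 hT f1 f3
      have hsub : ZC hB χ u1 u2 f ⊆ (OutC S H \ L) ∪ {b | b ∈ H ∧ f b = 1} := by
        intro b hb
        by_cases hbH : b ∈ H
        · exact Or.inr ⟨hbH, hb.1⟩
        · refine Or.inl ⟨zc_sub h hB hχ hC hu1 hu2 hbH hb, fun hc => ?_⟩
          have hb1 := hb.1
          rw [f2 b hc] at hb1
          exact absurd hb1 (by decide)
      have h3 := Set.ncard_le_ncard hsub (Set.toFinite _)
      have h4 := Set.ncard_union_le (OutC S H \ L) {b | b ∈ H ∧ f b = 1}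
      have h5 := half_le (H := H) f1
      have h6 : Nat.card H * H.index = Nat.card S.G := Subgroup.card_mul_index H
      have h7 : Nat.card H * 8 ≤ Nat.card H * H.index := Nat.mul_le_mul_left _ hi
      omega

end

section
variable (h : IsQuat S) (hB : Add S β) [Finite S.G]

include h hB in
/-- the local form -/
theorem elem_outC (hO : ∀ H : Subgroup S.G, Closed S H → 8 ≤ H.index → Few S (OutC S H)) :
    Elem S := by
  refine elem_of_closed h fun H hcl hi => ?_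
  have hC : Core S ≤ H := sInf_le hcl
  refine canExt_of_fun h hB (exists_out hi) fun χ hχ => ?_
  obtain ⟨Φ, h1, h2⟩ := exists_hom hB.two _ (graph_rel h hB hχ hC hi (hO H hcl hi))
  refine ⟨Φ, h1, fun y hy g => ?_⟩
  exact (h2 _ (AddSubgroup.subset_closure ⟨y, hy, g, rfl⟩)).symm

/-- the products of two elements -/
def p2 (x y : S.G) (l : Bool × Bool) : S.G := (bif l.1 then x else 1) * (bif l.2 then y else 1)

omit [Finite S.G] in
include h in
lemma p2_inj {x y : S.G} {M : Subgroup S.G} (hM : x ∉ M ∧ y ∉ M ∧ x * y ∉ M) (l l' : Bool × Bool)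
    (e : p2 x y l * p2 x y l' ∈ M) : l = l' := by
  obtain ⟨m1, m2, m3⟩ := hM
  have m3' : y * x ∉ M := by rwa [mul_comm]
  have e1 : x * (x * y) = y := by rw [← mul_assoc, h.exp2, one_mul]
  have e2 : y * (x * y) = x := by rw [mul_comm x y, ← mul_assoc, h.exp2, one_mul]
  have e3 : x * y * x = y := by rw [mul_comm, e1]
  have e4 : x * y * y = x := by rw [mul_assoc, h.exp2, mul_one]
  obtain ⟨a, b⟩ := l
  obtain ⟨c, d⟩ := l'
  cases a <;> cases b <;> cases c <;> cases d <;>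
    simp only [p2, cond_true, cond_false, one_mul, mul_one, e1, e2, e3, e4] at e
  · rfl
  · exact absurd e m2
  · exact absurd e m1
  · exact absurd e m3
  · exact absurd e m2
  · rfl
  · exact absurd e m3'
  · exact absurd e m1
  · exact absurd e m1
  · exact absurd e m3
  · rfl
  · exact absurd e m2
  · exact absurd e m3
  · exact absurd e m1
  · exact absurd e m2
  · rfl

omit [Finite S.G] in
include h in
lemma outC_facts {H : Subgroup S.G} {b : S.G} (hb : b ∈ OutC S H) :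
    ∃ x ∈ H, ∃ y ∈ H, x ∉ D h b ⊔ Core S ∧ y ∉ D h b ⊔ Core S ∧ x * y ∉ D h b ⊔ Core S := by
  obtain ⟨-, x, hx, y, hy, hxy⟩ := hb
  have key : ∀ w : S.G, w = x ∨ w = y ∨ w = x * y → w ∉ D h b ⊔ Core S := by
    intro w hw hc
    obtain ⟨v, hv, c, hc, e⟩ := Subgroup.mem_sup.1 hc
    refine hxy w hw c hc ?_
    rw [← e, mul_assoc, h.exp2, mul_one]
    exact hv
  exact ⟨x, hx, y, hy, key x (Or.inl rfl), key y (Or.inr (Or.inl rfl)),
    key _ (Or.inr (Or.inr rfl))⟩

include h in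
/-- the index modulo the core -/
lemma index_outC {H : Subgroup S.G} (hcl : Closed S H) {b : S.G} (hb : b ∈ OutC S H) :
    b ∉ Core S ∧ 4 < (D h b ⊔ Core S).index := by
  have hC : Core S ≤ H := sInf_le hcl
  refine ⟨fun hc => hb.1 (hC hc), ?_⟩
  by_contra hi
  push Not at hi
  obtain ⟨x, hx, y, hy, hM⟩ := outC_facts h hb
  have hmem : ∀ l, p2 x y l ∈ H := by
    rintro ⟨a, b⟩
    refine H.mul_mem ?_ ?_
    · cases a
      · exact H.one_mem
      · exact hx
    · cases b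
      · exact H.one_mem
      · exact hy
  let φ : Bool × Bool → S.G ⧸ (D h b ⊔ Core S) := fun l => QuotientGroup.mk (p2 x y l)
  have hinj : Function.Injective φ := by
    intro l l' e
    have e1 := QuotientGroup.eq.1 e
    rw [inv_self h] at e1
    exact p2_inj h hM l l' e1
  have hcard : Nat.card (S.G ⧸ (D h b ⊔ Core S)) ≤ Nat.card (Bool × Bool) := by
    have e2 : Nat.card (Bool × Bool) = 4 := by simp [Nat.card_eq_fintype_card]
    rw [e2]
    exact hi
  have hbij : Function.Bijective φ :=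
    (Nat.bijective_iff_injective_and_card φ).2 ⟨hinj, le_antisymm
      (Nat.card_le_card_of_injective φ hinj) hcard⟩
  apply closed_sup h hcl hb.1
  rw [eq_top_iff]
  intro g _
  obtain ⟨l, hl⟩ := hbij.2 (QuotientGroup.mk g)
  have e1 := QuotientGroup.eq.1 hl
  rw [inv_self h] at e1
  have e2 : g = (p2 x y l * g) * p2 x y l := by
    rw [mul_comm (p2 x y l) g, mul_assoc, h.exp2, mul_one]
  rw [e2]
  refine Subgroup.mul_mem _ ?_ (Subgroup.mem_sup_right (hmem l))
  exact (sup_le_sup_left hC _) e1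

include h in
/-- the relative index -/
lemma relIndex_outC {H : Subgroup S.G} {b : S.G} (hb : b ∈ OutC S H) :
    4 ≤ (D h b ⊔ Core S).relIndex H := by
  obtain ⟨x, hx, y, hy, hM⟩ := outC_facts h hb
  have hmem : ∀ l, p2 x y l ∈ H := by
    rintro ⟨a, b⟩
    refine H.mul_mem ?_ ?_
    · cases a
      · exact H.one_mem
      · exact hx
    · cases b
      · exact H.one_mem
      · exact hy
  let φ : Bool × Bool → H ⧸ (D h b ⊔ Core S).subgroupOf H :=
    fun l => QuotientGroup.mk ⟨p2 x y l, hmem l⟩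
  have hinj : Function.Injective φ := by
    intro l l' e
    have e1 := QuotientGroup.eq.1 e
    rw [Subgroup.mem_subgroupOf] at e1
    have e2 : (p2 x y l)⁻¹ * p2 x y l' ∈ D h b ⊔ Core S := e1
    rw [inv_self h] at e2
    exact p2_inj h hM l l' e2
  have := Nat.card_le_card_of_injective φ hinj
  have e2 : Nat.card (Bool × Bool) = 4 := by simp [Nat.card_eq_fintype_card]
  rw [e2] at this
  exact this

include h hB in
/-- the global form -/
theorem elem_rel (hO : Few S {a : S.G | a ∉ Core S ∧ 4 < (D h a ⊔ Core S).index}) : Elem S :=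
  elem_outC h hB fun _ hcl _ => hO.mono fun _ hb => index_outC h hcl hb

include h hB in
/-- the local form with indices -/
theorem elem_rel_local (hO : ∀ H : Subgroup S.G, Closed S H → 8 ≤ H.index →
    Few S {a : S.G | a ∉ H ∧ 4 ≤ (D h a ⊔ Core S).relIndex H}) : Elem S :=
  elem_outC h hB fun H hcl hi => Few.mono
    (E' := {a : S.G | a ∉ H ∧ 4 ≤ (D h a ⊔ Core S).relIndex H})
    (fun _ hb => ⟨hb.1, relIndex_outC h hb⟩) (hO H hcl hi)

end

end Pool.Agent.Zk81.Out
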