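import Pool.Agent.Zk81.Out.Main

/-! Indices of value groups and numbers of quaternions. -/

set_option autoImplicit false

namespace Pool.Agent.Zk81.Out

open Pool.Agent.H315R3.ETC Pool.Agent.TH673.VG Pool.Agent.R19.QS Pool.Agent.N88.ETC

variable {S : QData} (h : IsQuat S) [Finite S.G]

/-- the number of quaternions of the form `q(a,x)` is at least the index of `V(a)` -/
lemma index_le_vals (a : S.G) : (D h a).index ≤ {t : S.Q | ∃ x, S.q a x = t}.ncard := by
  have hft : {t : S.Q | ∃ x, S.q a x = t}.Finite := by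
    refine (Set.finite_range (fun x : S.G => S.q a x)).subset ?_
    rintro t ⟨x, rfl⟩
    exact ⟨x, rfl⟩
  have hfin : Finite {t : S.Q | ∃ x, S.q a x = t} := hft.to_subtype
  have hwd : ∀ x y : S.G, (QuotientGroup.mk x : S.G ⧸ D h a) = QuotientGroup.mk y →
      S.q a x = S.q a y := by
    intro x y e
    have e1 := QuotientGroup.eq.1 e
    rw [inv_self h] at e1
    exact (h.qs3 _ _ _).2 e1
  let φ : S.G ⧸ D h a → {t : S.Q | ∃ x, S.q a x = t} := fun z => ⟨S.q a (Quotient.out z), _, rfl⟩
  have hinj : Function.Injective φ := by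
    intro z z' e
    have e1 : S.q a (Quotient.out z) = S.q a (Quotient.out z') := congrArg Subtype.val e
    have e2 := (h.qs3 _ _ _).1 e1
    rw [← QuotientGroup.out_eq' z, ← QuotientGroup.out_eq' z']
    refine QuotientGroup.eq.2 ?_
    rw [inv_self h]
    exact e2
  have := Nat.card_le_card_of_injective φ hinj
  rw [Nat.card_coe_set_eq] at this
  exact this

include h in
/-- the eight quaternions at an element of `Out` -/
lemma eight_le {H : Subgroup S.G} {b : S.G} (hb : b ∈ Out S H) :
    8 ≤ {t : S.Q | ∃ k ∈ H, S.q b k = t}.ncard := by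
  obtain ⟨hbH, x, hx, y, hy, z, hz, hne⟩ := hb
  have hft : {t : S.Q | ∃ k ∈ H, S.q b k = t}.Finite := by
    refine (Set.finite_range (fun x : S.G => S.q b x)).subset ?_
    rintro t ⟨x, -, rfl⟩
    exact ⟨x, rfl⟩
  have hfin : Finite {t : S.Q | ∃ k ∈ H, S.q b k = t} := hft.to_subtype
  have hmem : ∀ c : T3, pw x y z c ∈ H := by
    rintro ⟨c1, c2, c3⟩
    refine H.mul_mem ?_ (H.mul_mem ?_ ?_)
    · cases c1
      · exact H.one_mem
      · exact hx
    · cases c2
      · exact H.one_mem
      · exact hy
    · cases c3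
      · exact H.one_mem
      · exact hz
  let φ : T3 → {t : S.Q | ∃ k ∈ H, S.q b k = t} := fun c => ⟨S.q b (pw x y z c), _, hmem c, rfl⟩
  have hinj : Function.Injective φ := by
    intro l l' e
    exact q_inj h hne l l' (congrArg Subtype.val e)
  have := Nat.card_le_card_of_injective φ hinj
  rw [Nat.card_coe_set_eq] at this
  have e2 : Nat.card T3 = 8 := by simp [T3, Nat.card_eq_fintype_card]
  rwa [e2] at this

end Pool.Agent.Zk81.Out
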